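import Pool.Agent.U442.Sel.Main

/-!
The discriminant of `X ^ n - X - 1` has a prime factor with an odd exponent.
-/

set_option autoImplicit false

namespace Pool.Agent.U442.Sel

open Polynomial Equiv NumberField

theorem not_sq {F : Type} [Field F] [Algebra ℚ F] [IsAlgClosure ℚ F] {n : ℕ} (hn : 7 ≤ n)
    (ho : Odd n) (h4 : n % 4 = 1) (hlt : (n - 1) ^ (n - 1) < n ^ n) {b : ℕ} (hb0 : b ≠ 0)
    (hab : b ^ 2 = n ^ n - (n - 1) ^ (n - 1)) : False := by
  classical
  have hac : IsAlgClosed F := IsAlgClosure.isAlgClosed ℚ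
  have hcz : CharZero F := charZero_of_injective_algebraMap (algebraMap ℚ F).injective
  have hfin : Finite (RT n (F)) := finite_RT (by omega)
  let _ := Fintype.ofFinite (RT n (F))
  obtain ⟨δ, _, h1, hs⟩ := exists_delta (F := F) (show 2 ≤ n by omega) ho
  have h2 := h1 h4
  have hDF : (n : F) ^ n - ((n : F) - 1) ^ (n - 1) =
      ((b : F)) ^ 2 := by
    have h6 : ((b : F)) ^ 2 = ((b ^ 2 : ℕ) : F) := by
      push_cast
      rfl
    rw [h6, hab, Nat.cast_sub hlt.le]
    push_cast
    rw [Nat.cast_sub (by omega), Nat.cast_one]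
  rw [hDF] at h2
  have h3 : ∀ s : F ≃ₐ[ℚ] F, s δ = δ := by
    intro s
    rcases sq_eq_sq_iff_eq_or_eq_neg.1 h2 with h | h <;> rw [h] <;> simp
  have hδ0 : δ ≠ 0 := by
    rintro rfl
    rw [zero_pow two_ne_zero] at h2
    have := pow_eq_zero_iff (two_ne_zero) |>.1 h2.symm
    exact hb0 (by exact_mod_cast this)
  have hcard : Fintype.card (RT n (F)) = n := card_RT (by omega)
  obtain ⟨x, y, hxy⟩ := Fintype.exists_pair_of_one_lt_card
    (show 1 < Fintype.card (RT n (F)) by omega)
  obtain ⟨s, hs1⟩ := act_surjective (F := F) (show 2 ≤ n by omega) (swap x y)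
  have h5 := hs ℚ s
  rw [h3 s, hs1, Perm.sign_swap hxy] at h5
  simp only [Units.val_neg, Units.val_one, Int.cast_neg, Int.cast_one, neg_mul, one_mul] at h5
  exact hδ0 (self_eq_neg.1 h5)

attribute [-instance] DivisionRing.toRatAlgebra in
theorem exists_prime {n : ℕ} (hn : 7 ≤ n) (ho : Odd n) : ∃ p : ℕ, p.Prime ∧ p ≠ 2 ∧
    Odd (padicValNat p (n ^ n - (n - 1) ^ (n - 1))) := by
  classical
  have hlt : (n - 1) ^ (n - 1) < n ^ n := by
    calc (n - 1) ^ (n - 1) ≤ (n - 1) ^ n := Nat.pow_le_pow_right (by omega) (by omega)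
      _ < n ^ n := Nat.pow_lt_pow_left (by omega) (by omega)
  set D : ℕ := n ^ n - (n - 1) ^ (n - 1) with hD
  have hD0 : D ≠ 0 := by omega
  have hDodd : Odd D := by
    rw [hD]
    apply Nat.Odd.sub_even hlt.le (ho.pow)
    have : Even (n - 1) := by
      obtain ⟨k, rfl⟩ := ho
      exact ⟨k, by omega⟩
    exact this.pow_of_ne_zero (by omega)
  obtain ⟨a, b, hab, ha⟩ := Nat.sq_mul_squarefree D
  have ha0 : a ≠ 0 := by
    rintro rfl
    exact hD0 (by rw [← hab, mul_zero])
  have hb0 : b ≠ 0 := by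
    rintro rfl
    exact hD0 (by rw [← hab]; simp)
  by_cases ha1 : a = 1
  · -- a square is impossible
    exfalso
    rw [ha1, mul_one] at hab
    have h4 : n % 4 = 1 := by
      have h1 : n % 4 = 1 ∨ n % 4 = 3 := by
        obtain ⟨k, rfl⟩ := ho
        omega
      rcases h1 with h1 | h1
      · exact h1
      exfalso
      have h2 : (n ^ n) % 4 = 3 := by
        obtain ⟨k, rfl⟩ := ho
        rw [pow_succ, pow_mul, Nat.mul_mod, Nat.pow_mod]
        have h3 : (2 * k + 1) ^ 2 % 4 = 1 := by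
          rw [Nat.pow_mod, h1]
        rw [h3, one_pow, h1]
        rfl
      have h3 : (n - 1) ^ (n - 1) % 4 = 0 := by
        have : 4 ∣ (n - 1) ^ (n - 1) := by
          have h5 : 2 ∣ n - 1 := by
            obtain ⟨k, rfl⟩ := ho
            exact ⟨k, by omega⟩
          have h6 : 2 ^ 2 ∣ (n - 1) ^ 2 := pow_dvd_pow_of_dvd h5 2
          exact h6.trans (pow_dvd_pow _ (by omega))
        omega
      have h5 : D % 4 = 3 := by omega
      rw [← hab] at h5
      have h6 : b ^ 2 % 4 = 0 ∨ b ^ 2 % 4 = 1 := by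
        rw [Nat.pow_mod]
        have : b % 4 < 4 := Nat.mod_lt _ (by norm_num)
        interval_cases (b % 4) <;> simp
      omega
    exact not_sq (F := AlgebraicClosure ℚ) hn ho h4 hlt hb0 hab
  · obtain ⟨p, hp, hpa⟩ := Nat.exists_prime_and_dvd ha1
    have := Fact.mk hp
    refine ⟨p, hp, ?_, ?_⟩
    · rintro rfl
      have h1 : 2 ∣ D := by
        rw [← hab]
        exact hpa.mul_left _
      exact absurd h1 (by rw [← even_iff_two_dvd]; exact Nat.not_even_iff_odd.2 hDodd)
    · rw [← hab, padicValNat.mul (pow_ne_zero _ hb0) ha0, padicValNat.pow]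
      have h1 : padicValNat p a = 1 := by
        have h2 : 1 ≤ padicValNat p a := one_le_padicValNat_of_dvd ha0 hpa
        have h3 : padicValNat p a ≤ 1 := by
          rw [← Nat.factorization_def _ hp]
          exact ha.natFactorization_le_one p
        omega
      rw [h1]
      exact ⟨padicValNat p b, rfl⟩

end Pool.Agent.U442.Sel
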