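import Pool.Agent.U442.Sel.Exi

/-!
Polynomials congruent to `X ^ r g` modulo the maximal ideal of a discrete valuation, with a constant
coefficient of valuation one: ramification.
-/

set_option autoImplicit false

namespace Pool.Agent.U442.Sel

open Polynomial IsDedekindDomain
open Pool.Agent.X243.Gen (FullG)
open scoped Classical

/-- The Newton polygon of `f` for the discrete valuation `v` starts with a side from `(0, 1)` to
`(r, 0)`: the coefficients of `f` are in the valuation ring, the constant coefficient has valuation one, the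
coefficients of `X ^ j`, `0 < j < r`, are in the maximal ideal, and the coefficient of `X ^ r` is a
unit. -/
def EisensteinAt {K : Type} [Field K] (v : Valuation K (WithZero (Multiplicative ℤ))) (r : ℕ)
    (f : K[X]) : Prop :=
  v (f.coeff 0) = WithZero.exp (-1 : ℤ) ∧ (∀ j, 0 < j → j < r → v (f.coeff j) < 1) ∧
    v (f.coeff r) = 1 ∧ ∀ j, v (f.coeff j) ≤ 1

theorem le_exp_of_lt_one {y : WithZero (Multiplicative ℤ)} (h : y < 1) :
    y ≤ WithZero.exp (-1 : ℤ) := by
  rcases eq_or_ne y 0 with rfl | h0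
  · exact zero_le
  · obtain ⟨a, rfl⟩ : ∃ a : ℤ, y = WithZero.exp a := by
      obtain ⟨a, ha⟩ := WithZero.ne_zero_iff_exists.1 h0
      exact ⟨Multiplicative.toAdd a, ha.symm⟩
    rw [← WithZero.exp_zero, WithZero.exp_lt_exp] at h
    rw [WithZero.exp_le_exp]
    omega

theorem eisen {K E : Type} [Field K] [Field E] [Algebra K E]
    {v : Valuation K (WithZero (Multiplicative ℤ))} {w : Valuation E (WithZero (Multiplicative ℤ))}
    {e r : ℕ} (hr : 0 < r) (hvw : ∀ x : K, w (algebraMap K E x) = v x ^ e) (h3 : ¬ r ∣ e)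
    {f : K[X]} (hf : EisensteinAt v r f) (hm : f.Monic)
    (hs : (f.map (algebraMap K E)).Splits) : False := by
  obtain ⟨hf0, hfj, hfr, hfi⟩ := hf
  have he0 : 0 < e := by
    rcases Nat.eq_zero_or_pos e with h | h
    · rw [h] at h3
      exact absurd (dvd_zero r) h3
    · exact h
  set ψ : K →+* E := algebraMap K E with hψ
  have hlt1 : WithZero.exp (-1 : ℤ) < (1 : WithZero (Multiplicative ℤ)) := by
    rw [← WithZero.exp_zero, WithZero.exp_lt_exp]
    norm_num
  have hv0 : w (ψ (f.coeff 0)) = WithZero.exp (-(e : ℤ)) := by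
    rw [hvw, hf0, ← WithZero.exp_nsmul]
    congr 1
    simp
  -- a root of positive valuation
  obtain ⟨α, hα0, hα1⟩ : ∃ α : E, (f.map ψ).eval α = 0 ∧ w α < 1 := by
    by_contra hcon
    push Not at hcon
    have hroots : ∀ α ∈ (f.map ψ).roots, (1 : WithZero (Multiplicative ℤ)) ≤ w α :=
      fun α hα => hcon α (isRoot_of_mem_roots hα)
    have hmon : (f.map ψ).Monic := hm.map ψ
    have h1 := hs.coeff_zero_eq_prod_roots_of_monic hmon
    have h2 : w ((f.map ψ).coeff 0) < 1 := by
      rw [coeff_map, hvw, hf0]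
      exact pow_lt_one' hlt1 he0.ne'
    rw [h1, map_mul, map_pow] at h2
    have h3 : w (-1) = 1 := by rw [Valuation.map_neg, map_one]
    rw [h3, one_pow, one_mul, map_multiset_prod] at h2
    refine absurd h2 (not_lt.2 ?_)
    refine Multiset.one_le_prod fun x hx => ?_
    obtain ⟨α, hα, rfl⟩ := Multiset.mem_map.1 hx
    exact hroots α hα
  have hα00 : α ≠ 0 := by
    rintro rfl
    have h1 : (f.map ψ).coeff 0 = 0 := by rw [coeff_zero_eq_eval_zero, hα0]
    rw [coeff_map] at h1
    rw [h1, map_zero] at hv0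
    exact WithZero.exp_ne_zero hv0.symm
  have hwα : w α ≠ 0 := (map_ne_zero w).2 hα00
  have hwpos : 0 < w α := zero_lt_iff.2 hwα
  -- the terms
  let T : ℕ → E := fun j => ψ (f.coeff j) * α ^ j
  have hT0 : w (T 0) = WithZero.exp (-(e : ℤ)) := by
    show w (ψ (f.coeff 0) * α ^ 0) = _
    rw [pow_zero, mul_one, hv0]
  have hTr : w (T r) = w α ^ r := by
    show w (ψ (f.coeff r) * α ^ r) = _
    rw [map_mul, map_pow, hvw, hfr, one_pow, one_mul]
  have hTj : ∀ j, j ≠ 0 → j ≠ r → w (T j) < max (w (T 0)) (w (T r)) := by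
    intro j hj0 hjr
    rcases lt_or_gt_of_ne hjr with hj | hj
    · refine lt_of_lt_of_le ?_ (le_max_left _ _)
      rw [hT0]
      show w (ψ (f.coeff j) * α ^ j) < _
      rw [map_mul, map_pow, hvw]
      have h1 : v (f.coeff j) ^ e ≤ WithZero.exp (-(e : ℤ)) := by
        refine (pow_le_pow_left' (le_exp_of_lt_one (hfj j (Nat.pos_of_ne_zero hj0) hj)) e).trans_eq ?_
        rw [← WithZero.exp_nsmul]
        congr 1
        simp
      have h2 : w α ^ j < 1 := pow_lt_one' hα1 hj0
      calc v (f.coeff j) ^ e * w α ^ j ≤ WithZero.exp (-(e : ℤ)) * w α ^ j :=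
            mul_le_mul_left h1 _
        _ < WithZero.exp (-(e : ℤ)) * 1 :=
            (mul_lt_mul_iff_right₀ WithZero.exp_pos).2 h2
        _ = _ := mul_one _
    · refine lt_of_lt_of_le ?_ (le_max_right _ _)
      rw [hTr]
      show w (ψ (f.coeff j) * α ^ j) < _
      rw [map_mul, map_pow, hvw]
      have h1 : v (f.coeff j) ^ e ≤ 1 := pow_le_one' (hfi j) e
      have h2 : w α ^ j < w α ^ r := by
        obtain ⟨k, rfl⟩ := Nat.exists_eq_add_of_lt hj
        rw [add_assoc, pow_add]
        calc w α ^ r * w α ^ (k + 1) < w α ^ r * 1 :=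
              (mul_lt_mul_iff_right₀ (pow_pos hwpos r)).2 (pow_lt_one' hα1 (Nat.succ_ne_zero k))
          _ = _ := mul_one _
      calc v (f.coeff j) ^ e * w α ^ j ≤ 1 * w α ^ j := mul_le_mul_left h1 _
        _ = w α ^ j := one_mul _
        _ < _ := h2
  have hrN : r ≤ f.natDegree := by
    apply le_natDegree_of_ne_zero
    intro h
    rw [h, map_zero] at hfr
    exact zero_ne_one hfr
  have hsum : ∑ j ∈ Finset.range (f.natDegree + 1), T j = 0 := by
    have h1 := hα0
    rw [eval_eq_sum_range' (n := f.natDegree + 1)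
      (Nat.lt_succ_of_le natDegree_map_le)] at h1
    simpa only [coeff_map] using h1
  have h0mem : (0 : ℕ) ∈ Finset.range (f.natDegree + 1) := Finset.mem_range.2 (Nat.succ_pos _)
  have hrmem : r ∈ (Finset.range (f.natDegree + 1)).erase 0 :=
    Finset.mem_erase.2 ⟨hr.ne', Finset.mem_range.2 (Nat.lt_succ_of_le hrN)⟩
  rw [← Finset.add_sum_erase _ _ h0mem, ← Finset.add_sum_erase _ _ hrmem] at hsum
  have hmax0 : max (w (T 0)) (w (T r)) ≠ 0 := by
    refine ne_of_gt (lt_of_lt_of_le ?_ (le_max_left _ _))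
    rw [hT0]
    exact WithZero.exp_pos
  have hrest : w (∑ j ∈ ((Finset.range (f.natDegree + 1)).erase 0).erase r, T j) <
      max (w (T 0)) (w (T r)) := by
    refine Valuation.map_sum_lt _ hmax0 fun j hj => ?_
    rw [Finset.mem_erase, Finset.mem_erase] at hj
    exact hTj j hj.2.1 hj.1
  have heq : w (T 0 + T r) < max (w (T 0)) (w (T r)) := by
    have h1 : T 0 + T r = -∑ j ∈ ((Finset.range (f.natDegree + 1)).erase 0).erase r, T j := by
      rw [← add_assoc] at hsum
      exact eq_neg_of_add_eq_zero_left hsum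
    rw [h1, Valuation.map_neg]
    exact hrest
  have h6 : w (T 0) = w (T r) := by
    by_contra hne
    rw [Valuation.map_add_of_distinct_val _ hne] at heq
    exact lt_irrefl _ heq
  rw [hT0, hTr] at h6
  obtain ⟨a, ha⟩ : ∃ a : ℤ, w α = WithZero.exp a := by
    obtain ⟨a, ha⟩ := WithZero.ne_zero_iff_exists.1 hwα
    exact ⟨Multiplicative.toAdd a, ha.symm⟩
  rw [ha, ← WithZero.exp_nsmul, WithZero.exp_inj, nsmul_eq_mul] at h6
  apply h3
  have h8 : (e : ℤ) = r * (-a) := by linarith
  have h9 : (r : ℤ) ∣ (e : ℤ) := ⟨-a, h8⟩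
  exact_mod_cast h9

end Pool.Agent.U442.Sel
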