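import Pool.Agent.U442.Sel.Exi
import Pool.Agent.U442.Sel.Eis

/-!
Explicit congruence classes over Dedekind domains with finite residue fields: the symmetric group as
Galois group, and Eisenstein factors at one place.
-/

set_option autoImplicit false

namespace Pool.Agent.U442.Sel

open Polynomial IsDedekindDomain
open Pool.Agent.X243.Gen (FullG)
open scoped Classical

variable {R : Type} [CommRing R] [IsDedekindDomain R]

theorem exists_unifE (v : HeightOneSpectrum R) : ∃ π : R, π ∈ v.asIdeal ∧ π ∉ v.asIdeal ^ 2 := by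
  obtain ⟨π, hπ⟩ := v.intValuation_exists_uniformizer
  refine ⟨π, ?_, fun h => ?_⟩
  · have h1 := (v.intValuation_le_pow_iff_mem π 1).1 (by rw [hπ]; exact le_of_eq (by simp))
    rwa [pow_one] at h1
  · have h1 := (v.intValuation_le_pow_iff_mem π 2).2 h
    rw [hπ, WithZero.exp_le_exp] at h1
    norm_num at h1

theorem val_unif (K : Type) [Field K] [Algebra R K] [IsFractionRing R K]
    (v : HeightOneSpectrum R) {π : R} (h1 : π ∈ v.asIdeal) (h2 : π ∉ v.asIdeal ^ 2) :
    v.valuation K (algebraMap R K π) = WithZero.exp (-1 : ℤ) := by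
  rw [v.valuation_of_algebraMap]
  have hπ0 : π ≠ 0 := by
    rintro rfl
    exact h2 (Ideal.zero_mem _)
  have h4 : v.intValuation π ≤ WithZero.exp (-((1 : ℕ) : ℤ)) :=
    (v.intValuation_le_pow_iff_mem _ 1).2 (by rw [pow_one]; exact h1)
  have h5 : ¬ v.intValuation π ≤ WithZero.exp (-((2 : ℕ) : ℤ)) :=
    fun h => h2 ((v.intValuation_le_pow_iff_mem _ 2).1 h)
  obtain ⟨a, ha⟩ : ∃ a : ℤ, v.intValuation π = WithZero.exp a := by
    rw [v.intValuation_if_neg hπ0]
    exact ⟨_, rfl⟩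
  rw [ha, WithZero.exp_le_exp] at h4 h5
  rw [ha]
  congr 1
  push_cast at h4 h5
  omega

theorem eisensteinAt_map (K : Type) [Field K] [Algebra R K] [IsFractionRing R K]
    (v : HeightOneSpectrum R) {r : ℕ} (hr : 0 < r) {f : R[X]} {π : R} {g : R[X]}
    (h1 : π ∈ v.asIdeal) (h2 : π ∉ v.asIdeal ^ 2) (hg : g.coeff 0 = 1)
    (h3 : ∀ j, (f - (X ^ r - C π) * g).coeff j ∈ v.asIdeal ^ 2) :
    EisensteinAt (v.valuation K) r (f.map (algebraMap R K)) := by
  have hb : ∀ j, ((X ^ r - C π) * g).coeff j = (if r ≤ j then g.coeff (j - r) else 0) -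
      π * g.coeff j := by
    intro j
    rw [sub_mul, coeff_sub, coeff_C_mul, coeff_X_pow_mul']
  have hsq : v.asIdeal ^ 2 ≤ v.asIdeal := Ideal.pow_le_self two_ne_zero
  have hf : ∀ j, f.coeff j = (f - (X ^ r - C π) * g).coeff j +
      ((if r ≤ j then g.coeff (j - r) else 0) - π * g.coeff j) := by
    intro j
    rw [coeff_sub, hb]
    ring
  refine ⟨?_, fun j hj0 hjr => ?_, ?_, fun j => ?_⟩
  · rw [coeff_map]
    have e0 : f.coeff 0 = (f - (X ^ r - C π) * g).coeff 0 - π := by
      rw [hf 0, if_neg (by omega), hg]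
      ring
    refine val_unif K v ?_ fun h => h2 ?_
    · rw [e0]
      exact v.asIdeal.sub_mem (hsq (h3 0)) h1
    · have e1 : π = (f - (X ^ r - C π) * g).coeff 0 - f.coeff 0 := by rw [e0]; ring
      rw [e1]
      exact (v.asIdeal ^ 2).sub_mem (h3 0) h
  · rw [coeff_map, v.valuation_of_algebraMap, v.intValuation_lt_one_iff_mem, hf j,
      if_neg (by omega), zero_sub]
    exact v.asIdeal.add_mem (hsq (h3 j)) (v.asIdeal.neg_mem (v.asIdeal.mul_mem_right _ h1))
  · rw [coeff_map, v.valuation_of_algebraMap, HeightOneSpectrum.intValuation_eq_one_iff]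
    intro h
    have e1 : (1 : R) = f.coeff r - (f - (X ^ r - C π) * g).coeff r + π * g.coeff r := by
      rw [hf r, if_pos le_rfl, Nat.sub_self, hg]
      ring
    apply v.isPrime.ne_top
    rw [Ideal.eq_top_iff_one, e1]
    exact v.asIdeal.add_mem (v.asIdeal.sub_mem h (hsq (h3 r))) (v.asIdeal.mul_mem_right _ h1)
  · rw [coeff_map]
    exact v.valuation_le_one _

theorem exists_classE (hfin : ∀ p : HeightOneSpectrum R, Finite (R ⧸ p.asIdeal))
    (K : Type) [Field K] [Algebra R K] [IsFractionRing R K]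
    (v : HeightOneSpectrum R) (p : Fin 3 → HeightOneSpectrum R)
    (hp : Function.Injective p) (hv : ∀ i, v ≠ p i) {n r : ℕ} (hn : 4 ≤ n) (hr : 0 < r)
    (hrn : r ≤ n) (hcard : n ≤ Nat.card (R ⧸ (p 2).asIdeal)) :
    ∃ f₀ : R[X], f₀.Monic ∧ f₀.natDegree = n ∧ ∀ f : R[X], f.Monic → f.natDegree = n →
      (∀ j, (f - f₀).coeff j ∈ (p 0).asIdeal ⊓ (p 1).asIdeal ⊓ (p 2).asIdeal ⊓ v.asIdeal ^ 2) →
      (f.map (algebraMap R K)).Separable ∧ FullG (f.map (algebraMap R K)) ∧
        EisensteinAt (v.valuation K) r (f.map (algebraMap R K)) := by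
  have hmax : ∀ i, (p i).asIdeal.IsMaximal := fun i => (p i).isMaximal
  have hfin' : ∀ i, Finite (R ⧸ (p i).asIdeal) := fun i => hfin _
  let _ : ∀ i, Field (R ⧸ (p i).asIdeal) := fun i => Ideal.Quotient.field _
  obtain ⟨g0, g0m, g0i, g0d⟩ := exists_irr (k := R ⧸ (p 0).asIdeal) (n := n) (by omega)
  obtain ⟨g1, g1m, g1i, g1d⟩ := exists_irr (k := R ⧸ (p 1).asIdeal) (n := n - 1) (by omega)
  obtain ⟨g2, g2m, g2i, g2d⟩ := exists_irr (k := R ⧸ (p 2).asIdeal) (n := 2) (by omega)
  obtain ⟨S, hS⟩ : ∃ S : Finset (R ⧸ (p 2).asIdeal), S.card = n - 2 := by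
    let _ := Fintype.ofFinite (R ⧸ (p 2).asIdeal)
    obtain ⟨S, _, hS⟩ := Finset.exists_subset_card_eq
      (s := (Finset.univ : Finset (R ⧸ (p 2).asIdeal))) (n := n - 2) (by
        rw [Finset.card_univ, ← Nat.card_eq_fintype_card]
        omega)
    exact ⟨S, hS⟩
  obtain ⟨π, hπ1, hπ2⟩ := exists_unifE v
  -- the polynomials modulo the ideals
  have hG1m : (X * g1).Monic := monic_X.mul g1m
  have hG1d : (X * g1).natDegree = n := by
    rw [monic_X.natDegree_mul g1m, natDegree_X, g1d]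
    omega
  have hSm : (∏ c ∈ S, (X - C c)).Monic := monic_prod_X_sub_C (fun c => c) S
  have hG2m : (g2 * ∏ c ∈ S, (X - C c)).Monic := g2m.mul hSm
  have hG2d : (g2 * ∏ c ∈ S, (X - C c)).natDegree = n := by
    rw [g2m.natDegree_mul hSm, natDegree_finsetProd_X_sub_C_eq_card, g2d, hS]
    omega
  obtain ⟨g, hgm, hgd, hgc⟩ : ∃ g : R[X], g.Monic ∧ g.natDegree = n - r ∧ g.coeff 0 = 1 := by
    rcases Nat.lt_or_ge r n with h | h
    · exact ⟨X ^ (n - r) + C 1, monic_X_pow_add_C 1 (by omega), natDegree_X_pow_add_C, by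
        rw [coeff_add, coeff_X_pow, if_neg (by omega), coeff_C_zero, zero_add]⟩
    · exact ⟨1, monic_one, by rw [natDegree_one]; omega, coeff_one_zero⟩
  have hc3 : (X ^ r - C π : R[X]).Monic := monic_X_pow_sub_C π hr.ne'
  have hG3m : ((X ^ r - C π) * g : R[X]).Monic := hc3.mul hgm
  have hG3d : ((X ^ r - C π) * g : R[X]).natDegree = n := by
    rw [hc3.natDegree_mul hgm, natDegree_X_pow_sub_C, hgd]
    omega
  obtain ⟨H0, hH0⟩ := exists_lift (Ideal.Quotient.mk (p 0).asIdeal) Ideal.Quotient.mk_surjective g0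
  obtain ⟨H1, hH1⟩ := exists_lift (Ideal.Quotient.mk (p 1).asIdeal) Ideal.Quotient.mk_surjective
    (X * g1)
  obtain ⟨H2, hH2⟩ := exists_lift (Ideal.Quotient.mk (p 2).asIdeal) Ideal.Quotient.mk_surjective
    (g2 * ∏ c ∈ S, (X - C c))
  -- the Chinese remainder theorem
  have hcrt : ∀ j : ℕ, ∃ y : R, y - H0.coeff j ∈ (p 0).asIdeal ∧ y - H1.coeff j ∈ (p 1).asIdeal ∧
      y - H2.coeff j ∈ (p 2).asIdeal ∧
      y - ((X ^ r - C π) * g : R[X]).coeff j ∈ v.asIdeal ^ 2 := by
    intro j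
    let Q : Fin 4 → HeightOneSpectrum R := ![p 0, p 1, p 2, v]
    have hQ : Function.Injective Q := by
      have h01 : p 0 ≠ p 1 := fun h => absurd (hp h) (by decide)
      have h02 : p 0 ≠ p 2 := fun h => absurd (hp h) (by decide)
      have h12 : p 1 ≠ p 2 := fun h => absurd (hp h) (by decide)
      intro a b hab
      fin_cases a <;> fin_cases b <;> simp [Q] at hab ⊢
      · exact h01 hab
      · exact h02 hab
      · exact hv 0 hab.symm
      · exact h01 hab.symm
      · exact h12 hab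
      · exact hv 1 hab.symm
      · exact h02 hab.symm
      · exact h12 hab.symm
      · exact hv 2 hab.symm
      · exact hv 0 hab
      · exact hv 1 hab
      · exact hv 2 hab
    obtain ⟨y, hy⟩ := IsDedekindDomain.exists_forall_sub_mem_ideal (s := Finset.univ)
      (fun i => (Q i).asIdeal) ![1, 1, 1, 2] (fun i _ => (Q i).prime)
      (fun a _ b _ hab h => hab (hQ (HeightOneSpectrum.ext h)))
      (fun i => (![H0.coeff j, H1.coeff j, H2.coeff j,
        ((X ^ r - C π) * g : R[X]).coeff j] : Fin 4 → R) i)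
    refine ⟨y, ?_, ?_, ?_, ?_⟩
    · have := hy 0 (Finset.mem_univ _)
      simpa [Q] using this
    · have := hy 1 (Finset.mem_univ _)
      simpa [Q] using this
    · have := hy 2 (Finset.mem_univ _)
      simpa [Q] using this
    · have := hy 3 (Finset.mem_univ _)
      simpa [Q] using this
  choose y hy using hcrt
  let f₀ : R[X] := X ^ n + ∑ j : Fin n, C (y j) * X ^ (j : ℕ)
  have hdeg0 : (∑ j : Fin n, C (y j) * X ^ (j : ℕ) : R[X]).degree < n :=
    degree_sum_fin_lt _
  have hf0m : f₀.Monic := monic_X_pow_add hdeg0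
  have hf0d : f₀.natDegree = n := by
    have h1 : (∑ j : Fin n, C (y j) * X ^ (j : ℕ) : R[X]).degree < (X ^ n : R[X]).degree := by
      rw [degree_X_pow]
      exact hdeg0
    have h2 := degree_add_eq_left_of_degree_lt h1
    rw [degree_X_pow] at h2
    exact natDegree_eq_of_degree_eq_some h2
  have hcoeff : ∀ j < n, f₀.coeff j = y j := by
    intro j hj
    have h1 : (X ^ n : R[X]).coeff j = 0 := by
      rw [coeff_X_pow, if_neg hj.ne]
    change (X ^ n + ∑ j : Fin n, C (y j) * X ^ (j : ℕ) : R[X]).coeff j = y j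
    rw [coeff_add, h1, zero_add, finsetSum_coeff]
    simp only [coeff_C_mul_X_pow]
    rw [Finset.sum_eq_single (⟨j, hj⟩ : Fin n)]
    · simp
    · intro b _ hb
      rw [if_neg]
      intro h
      exact hb (Fin.ext h.symm)
    · intro h
      exact absurd (Finset.mem_univ _) h
  refine ⟨f₀, hf0m, hf0d, fun f hm hd hI => ?_⟩
  -- equality of the reductions
  have hred : ∀ (I : Ideal R) (H : R[X]), (∀ j, (f - f₀).coeff j ∈ I) →
      (∀ j, y j - H.coeff j ∈ I) → (H.map (Ideal.Quotient.mk I)).Monic →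
      (H.map (Ideal.Quotient.mk I)).natDegree = n →
      f.map (Ideal.Quotient.mk I) = H.map (Ideal.Quotient.mk I) := by
    intro I H h1 h2 h3 h4
    ext j
    rcases lt_trichotomy j n with hj | hj | hj
    · rw [coeff_map, coeff_map, Ideal.Quotient.eq]
      have e : f.coeff j - H.coeff j = (f - f₀).coeff j + (y j - H.coeff j) := by
        rw [coeff_sub, hcoeff j hj]
        ring
      rw [e]
      exact I.add_mem (h1 j) (h2 j)
    · subst hj
      have e1 : (H.map (Ideal.Quotient.mk I)).coeff j = 1 := by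
        have := h3.coeff_natDegree
        rwa [h4] at this
      rw [e1, coeff_map]
      have e2 : f.coeff j = 1 := by
        have := hm.coeff_natDegree
        rwa [hd] at this
      rw [e2, map_one]
    · rw [coeff_eq_zero_of_natDegree_lt, coeff_eq_zero_of_natDegree_lt]
      · rw [h4]; exact hj
      · refine lt_of_le_of_lt natDegree_map_le ?_
        rw [hd]
        exact hj
  have hI0 : ∀ j, (f - f₀).coeff j ∈ (p 0).asIdeal := fun j => (hI j).1.1.1
  have hI1 : ∀ j, (f - f₀).coeff j ∈ (p 1).asIdeal := fun j => (hI j).1.1.2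
  have hI2 : ∀ j, (f - f₀).coeff j ∈ (p 2).asIdeal := fun j => (hI j).1.2
  have hI3 : ∀ j, (f - f₀).coeff j ∈ v.asIdeal ^ 2 := fun j => (hI j).2
  have r0 : f.map (Ideal.Quotient.mk (p 0).asIdeal) = g0 := by
    rw [hred _ H0 hI0 (fun j => (hy j).1) (by rw [hH0]; exact g0m) (by rw [hH0]; exact g0d), hH0]
  have r1 : f.map (Ideal.Quotient.mk (p 1).asIdeal) = X * g1 := by
    rw [hred _ H1 hI1 (fun j => (hy j).2.1) (by rw [hH1]; exact hG1m) (by rw [hH1]; exact hG1d),
      hH1]
  have r2 : f.map (Ideal.Quotient.mk (p 2).asIdeal) = g2 * ∏ c ∈ S, (X - C c) := by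
    rw [hred _ H2 hI2 (fun j => (hy j).2.2.1) (by rw [hH2]; exact hG2m)
      (by rw [hH2]; exact hG2d), hH2]
  have := hmax 0
  have := hmax 1
  have := hmax 2
  have h3' : Pool.Agent.X243.Sol.I3 n (f.map (Ideal.Quotient.mk (p 2).asIdeal)) := by
    refine ⟨1, g2, S, one_ne_zero, g2m, g2i, g2d, by omega, ?_⟩
    rw [r2, C_1, one_mul]
  have hfull := (Pool.Agent.X243.Gen.gen_full (R := R) (k := K) (m1 := (p 0).asIdeal)
    (m2 := (p 1).asIdeal) (m3 := (p 2).asIdeal) (by omega) hd.le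
    ⟨by rw [r0]; exact g0i, by rw [r0]; exact g0d⟩
    ⟨by rw [r1]; exact hG1d, g1, g1i, by omega, by rw [r1]; exact dvd_mul_left _ _⟩ h3').2
  refine ⟨hfull.1, hfull.2, eisensteinAt_map K v hr hπ1 hπ2 hgc fun j => ?_⟩
  have hnt : Nontrivial (R ⧸ v.asIdeal ^ 2) := by
    refine Ideal.Quotient.nontrivial_iff.2 fun h => v.isPrime.ne_top ?_
    rw [Ideal.eq_top_iff_one] at h ⊢
    exact Ideal.pow_le_self two_ne_zero h
  have h1 := hred _ ((X ^ r - C π) * g) hI3 (fun j => (hy j).2.2.2)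
    (hG3m.map _) (by rw [hG3m.natDegree_map, hG3d])
  have h2 := congrArg (fun q => coeff q j) h1
  simp only [coeff_map] at h2
  rw [coeff_sub]
  exact Ideal.Quotient.eq.1 h2

end Pool.Agent.U442.Sel
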