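import Pool.Agent.U442.Htj.Main
import Pool.Agent.U442.Htj.Grp

/-!
Tate classes on products of hyperelliptic Jacobians over arbitrary fields: a criterion with normal
extensions which do not contain the roots.
-/

set_option autoImplicit false

namespace Pool.Agent.U442.Sel

open Polynomial Pool.Agent.N171 Pool.Agent.N197.Htj
open Pool.Agent.U442.Htj (TrivialModTwo HasMatrices Generated AllSplit trivMod_zero trivMod_one_iff
  governed_of_generated alt_le_map_normal)
open scoped Classical

/-- A separable element outside of an intermediate field is moved by an automorphism over this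
field. -/
theorem exists_moved_sep {K F : Type} [Field K] [Field F] [Algebra K F] [IsAlgClosure K F]
    (M : IntermediateField K F) {f : K[X]} (hsep : f.Separable) {x : F} (hx : x ∈ f.rootSet F)
    (hxM : x ∉ M) : ∃ s : F ≃ₐ[K] F, s ∈ M.fixingSubgroup ∧ s x ≠ x := by
  have hF : IsAlgClosed F := IsAlgClosure.isAlgClosed K
  have halgK : Algebra.IsAlgebraic K F := IsAlgClosure.isAlgebraic
  have halg : Algebra.IsAlgebraic M F := Algebra.IsAlgebraic.tower_top (K := K) M
  have hcl : IsAlgClosure M F := ⟨hF, halg⟩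
  have hnormal : Normal M F := IsAlgClosure.normal M F
  have hint : IsIntegral M x := (Algebra.IsAlgebraic.isAlgebraic (R := M) x).isIntegral
  have hroot : aeval x f = 0 := ((mem_rootSet_of_ne hsep.ne_zero).1 hx)
  have hdvd : minpoly M x ∣ f.map (algebraMap K M) := by
    apply minpoly.dvd
    rw [aeval_map_algebraMap]
    exact hroot
  have hs : (minpoly M x).Separable := hsep.map.of_dvd hdvd
  have hdeg : 2 ≤ (minpoly M x).natDegree := by
    have h0 : 0 < (minpoly M x).natDegree := minpoly.natDegree_pos hint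
    have h1 : (minpoly M x).natDegree ≠ 1 := by
      intro h
      obtain ⟨y, hy⟩ := minpoly.natDegree_eq_one_iff.1 h
      apply hxM
      rw [← hy]
      exact y.2
    omega
  have hcard : Fintype.card ((minpoly M x).rootSet F) = (minpoly M x).natDegree :=
    card_rootSet_eq_natDegree hs (IsAlgClosed.splits _)
  obtain ⟨y, hy, hyx⟩ : ∃ y ∈ (minpoly M x).rootSet F, y ≠ x := by
    by_contra hcon
    push Not at hcon
    have h1 : Fintype.card ((minpoly M x).rootSet F) ≤ 1 := by
      rw [Fintype.card_le_one_iff]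
      intro a b
      exact Subtype.ext ((hcon a a.2).trans (hcon b b.2).symm)
    omega
  obtain ⟨σ, hσ⟩ := minpoly.exists_algEquiv_of_root' (Algebra.IsAlgebraic.isAlgebraic (R := M) x)
    ((mem_rootSet_of_ne (minpoly.ne_zero hint)).1 hy)
  refine ⟨σ.restrictScalars K, ?_, ?_⟩
  · rw [IntermediateField.mem_fixingSubgroup_iff]
    intro z hz
    exact σ.commutes ⟨z, hz⟩
  · show σ x ≠ x
    rw [hσ]
    exact hyx

theorem fixing_normal {K F : Type} [Field K] [Field F] [Algebra K F] [Normal K F]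
    (M : IntermediateField K F) (hM : Normal K M) : M.fixingSubgroup.Normal := by
  refine ⟨fun n hn g => ?_⟩
  rw [IntermediateField.mem_fixingSubgroup_iff] at hn ⊢
  intro x hx
  have h1 := IntermediateField.normal_iff_forall_map_le'.1 hM g⁻¹
  have h2 : g⁻¹ x ∈ M := h1 ⟨x, hx, rfl⟩
  show g (n (g⁻¹ x)) = x
  rw [hn _ h2]
  exact AlgEquiv.apply_symm_apply g x

theorem allSplit_of_fields {K L F : Type} [Field K] [Field L] [Field F] [Algebra K L]
    [Algebra L F] [Algebra K F] [IsScalarTower K L F] [IsAlgClosure L F] [IsAlgClosure K F]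
    {ι : Type} [Finite ι] [Nonempty ι] (f : ι → K[X]) (hyp : ∀ i, HypP (f i))
    (h7 : ∀ i, 7 ≤ (f i).natDegree)
    (hG : ∀ i, ∀ π : Equiv.Perm ((f i).rootSet F), Equiv.Perm.sign π = 1 →
      ∃ s : F ≃ₐ[K] F, ∀ x : (f i).rootSet F, s (x : F) = (π x : F))
    {d : ℕ} {t : (F ≃ₐ[L] F) →* Matrix (Fin d) (Fin d) ℤ_[2]}
    {W : Type} [AddCommGroup W] [Module ℚ_[2] W] {τ : Representation ℚ_[2] (F ≃ₐ[L] F) W}
    (hτ : HasMatrices τ t)
    (hA : ∀ i, ∃ M : IntermediateField K F, Normal K M ∧
      (∀ x : L, algebraMap L F x ∈ M) ∧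
      (∀ s : F ≃ₐ[L] F, (∀ x ∈ M, s x = x) → TrivialModTwo t s) ∧
      (∀ j, j ≠ i → ∀ x ∈ (f j).rootSet F, x ∈ M) ∧ ∃ x ∈ (f i).rootSet F, x ∉ M) :
    AllSplit L F f τ := by
  have hF : IsAlgClosed F := IsAlgClosure.isAlgClosed K
  have hyp' : ∀ i, HypP ((f i).map (algebraMap K L)) := fun i =>
    { monic := (hyp i).monic.map _
      sep := (hyp i).sep.map
      odd := by rw [natDegree_map]; exact (hyp i).odd
      two := by
        rw [← map_ofNat (algebraMap K L) 2]
        exact (map_ne_zero_iff _ (algebraMap K L).injective).2 (hyp i).two }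
  have hmem : ∀ (i : ι) (x : F), x ∈ ((f i).map (algebraMap K L)).rootSet F ↔
      x ∈ (f i).rootSet F := by
    intro i x
    rw [mem_rootSet_of_ne (hyp' i).monic.ne_zero, mem_rootSet_of_ne (hyp i).monic.ne_zero,
      aeval_map_algebraMap]
  -- automorphisms over `L`
  have hL : ∀ (i : ι) (M : IntermediateField K F), (∀ x : L, algebraMap L F x ∈ M) →
      ∀ s ∈ M.fixingSubgroup, ∃ s' : F ≃ₐ[L] F, (∀ x ∈ M, s' x = x) ∧ ∀ x, s' x = s x := by
    intro i M hM s hs
    rw [IntermediateField.mem_fixingSubgroup_iff] at hs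
    exact ⟨AlgEquiv.ofRingEquiv (f := s.toRingEquiv) fun x => hs _ (hM x), fun x hx => hs x hx,
      fun x => rfl⟩
  obtain ⟨ω, hω, h⟩ := Pool.Agent.N197.Htj.bg.{0} (K := L) (F := F)
    (fun i => (f i).map (algebraMap K L)) (fun i => by rw [natDegree_map]; exact h7 i)
    (fun i π hπ => by
      obtain ⟨M, hM, hLM, -, -, x, hx, hxM⟩ := hA i
      have hKF : Normal K F := IsAlgClosure.normal K F
      have hN : M.fixingSubgroup.Normal := fixing_normal M hM
      let φ : (F ≃ₐ[K] F) →* Equiv.Perm ((f i).rootSet F) :=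
        MulAction.toPermHom (F ≃ₐ[K] F) ((f i).rootSet F)
      have hφa : ∀ s (x : (f i).rootSet F), ((φ s x : (f i).rootSet F) : F) = s x :=
        fun s x => rfl
      have hφ : alternatingGroup ((f i).rootSet F) ≤ φ.range := by
        intro π hπ
        obtain ⟨s, hs⟩ := hG i π (Equiv.Perm.mem_alternatingGroup.1 hπ)
        refine ⟨s, ?_⟩
        ext x
        rw [hφa, hs]
      obtain ⟨s, hs, hsx⟩ := exists_moved_sep M (hyp i).sep hx hxM
      have hcard : Nat.card ((f i).rootSet F) = (f i).natDegree := by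
        rw [Nat.card_eq_fintype_card,
          card_rootSet_eq_natDegree (hyp i).sep (IsAlgClosed.splits _)]
      have halt := alt_le_map_normal (by rw [hcard]; exact (by norm_num : 5 ≤ 7).trans (h7 i)) φ
        hφ M.fixingSubgroup ⟨s, hs, fun h => hsx (by
          have := congrArg (fun g : Equiv.Perm ((f i).rootSet F) =>
            ((g ⟨x, hx⟩ : (f i).rootSet F) : F)) h
          exact this)⟩
      let e : ((f i).map (algebraMap K L)).rootSet F ≃ (f i).rootSet F :=
        Equiv.subtypeEquivRight (hmem i)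
      obtain ⟨g, hg, hgπ⟩ := halt (Equiv.Perm.mem_alternatingGroup.2
        (show Equiv.Perm.sign (e.permCongr π) = 1 by rw [Equiv.Perm.sign_permCongr]; exact hπ))
      obtain ⟨s', h1, h2⟩ := hL i M hLM g hg
      refine ⟨s', fun y => ?_⟩
      have h := congrArg (fun ρ : Equiv.Perm ((f i).rootSet F) =>
        ((ρ (e y) : (f i).rootSet F) : F)) hgπ
      simp only [Equiv.permCongr_apply, Equiv.symm_apply_apply] at h
      rw [h2]
      exact h)
    (fun i j hij => by
      obtain ⟨M, hM, hLM, -, hj, x, hx, hxM⟩ := hA i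
      obtain ⟨s, hs, hsx⟩ := exists_moved_sep M (hyp i).sep hx hxM
      obtain ⟨s', h1, h2⟩ := hL i M hLM s hs
      exact ⟨s', fun y hy => h1 y (hj j hij y ((hmem j y).1 hy)), x, (hmem i x).2 hx, by
        rw [h2]; exact hsx⟩)
  refine ⟨hyp', ω, hω, fun N _ _ ν hν => h N ν ?_⟩
  obtain ⟨d', t', ⟨b, hb⟩, h6⟩ := governed_of_generated hτ hν
  refine ⟨d', b, fun s => trivMod_zero b hb s, fun i => Or.inr ?_⟩
  obtain ⟨M, hM, hLM, ht, -, x, hx, hxM⟩ := hA i
  obtain ⟨s, hs, hsx⟩ := exists_moved_sep M (hyp i).sep hx hxM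
  obtain ⟨s', h1, h2⟩ := hL i M hLM s hs
  exact ⟨s', (trivMod_one_iff b hb s').2 (h6 s' (ht s' h1)), x, (hmem i x).2 hx, by
    rw [h2]; exact hsx⟩

end Pool.Agent.U442.Sel
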