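import Mathlib

/-!
Polynomials congruent to `(X ^ 3 - π) g` modulo the square of a prime ideal: cubic ramification.
-/

set_option autoImplicit false

namespace Pool.Agent.U442.Sel

open NumberField IsDedekindDomain Polynomial

variable {K : Type} [Field K] [NumberField K]

/-- The polynomial `f` is congruent to `(X ^ 3 - π) g` modulo the square of the prime ideal `v`, with
an element `π` of `v` not in `v ^ 2` and a polynomial `g` with `g(0)` not in `v`. -/
def CubicAt (v : HeightOneSpectrum (𝓞 K)) (f : (𝓞 K)[X]) : Prop :=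
  ∃ (π : 𝓞 K) (g : (𝓞 K)[X]), π ∈ v.asIdeal ∧ π ∉ v.asIdeal ^ 2 ∧ g.coeff 0 ∉ v.asIdeal ∧
    ∀ j, (f - (X ^ 3 - C π) * g).coeff j ∈ v.asIdeal ^ 2

theorem cubic {v : HeightOneSpectrum (𝓞 K)} {f : (𝓞 K)[X]} (hf : CubicAt v f) (hm : f.Monic)
    {E : Type} [Field E] [NumberField E] [Algebra K E] {P : HeightOneSpectrum (𝓞 E)}
    (hP : P.asIdeal.LiesOver v.asIdeal)
    (h3 : ¬ 3 ∣ v.asIdeal.ramificationIdx' P.asIdeal)
    (hs : ((f.map (algebraMap (𝓞 K) K)).map (algebraMap K E)).Splits) : False := by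
  obtain ⟨π, g, hπ, hπ2, hg0, hh⟩ := hf
  set e := v.asIdeal.ramificationIdx' P.asIdeal with he
  have he0 : 0 < e := by
    rcases Nat.eq_zero_or_pos e with h | h
    · rw [h] at h3
      exact absurd (dvd_zero 3) h3
    · exact h
  set ψ : 𝓞 K →+* E := (algebraMap K E).comp (algebraMap (𝓞 K) K) with hψ
  have hf' : (f.map (algebraMap (𝓞 K) K)).map (algebraMap K E) = f.map ψ := by
    rw [Polynomial.map_map]
  rw [hf'] at hs
  -- valuations of elements of `𝓞 K`
  have hval : ∀ a : 𝓞 K, P.valuation E (ψ a) = (v.valuation K (a : K)) ^ e := by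
    intro a
    exact (HeightOneSpectrum.valuation_liesOver (A := 𝓞 K) (B := 𝓞 E) (K := K) E v P (a : K)).symm
  have hle1 : ∀ a : 𝓞 K, P.valuation E (ψ a) ≤ 1 := by
    intro a
    rw [hval]
    exact pow_le_one' (v.valuation_le_one a) _
  have hπv : P.valuation E (ψ π) = WithZero.exp (-(e : ℤ)) := by
    rw [hval]
    have h1 : v.valuation K (π : K) = WithZero.exp (-(1 : ℤ)) := by
      have h0 : v.valuation K (π : K) = v.intValuation π :=
        v.valuation_of_algebraMap π
      rw [h0]
      have hπ0 : π ≠ 0 := by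
        rintro rfl
        exact hπ2 (Ideal.zero_mem _)
      have h2 : v.intValuation π ≤ WithZero.exp (-((1 : ℕ) : ℤ)) :=
        (v.intValuation_le_pow_iff_mem _ 1).2 (by rw [pow_one]; exact hπ)
      have h4 : ¬ v.intValuation π ≤ WithZero.exp (-((2 : ℕ) : ℤ)) :=
        fun h => hπ2 ((v.intValuation_le_pow_iff_mem _ 2).1 h)
      obtain ⟨a, ha⟩ : ∃ a : ℤ, v.intValuation π = WithZero.exp a := by
        rw [v.intValuation_if_neg hπ0]
        exact ⟨_, rfl⟩
      rw [ha, WithZero.exp_le_exp] at h2 h4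
      rw [ha]
      congr 1
      push_cast at h2 h4
      omega
    rw [h1, ← WithZero.exp_nsmul]
    congr 1
    simp
  have hsq : ∀ a ∈ v.asIdeal ^ 2, P.valuation E (ψ a) ≤ WithZero.exp (-(2 * e : ℤ)) := by
    intro a ha
    rw [hval]
    have h1 : v.valuation K (a : K) ≤ WithZero.exp (-((2 : ℕ) : ℤ)) := by
      have h0 : v.valuation K (a : K) = v.intValuation a := v.valuation_of_algebraMap a
      rw [h0]
      exact (v.intValuation_le_pow_iff_mem _ 2).2 ha
    refine (pow_le_pow_left' h1 e).trans_eq ?_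
    rw [← WithZero.exp_nsmul]
    congr 1
    simp
    ring
  -- a root in `P`
  obtain ⟨α, hα0, hα1⟩ : ∃ α : E, (f.map ψ).eval α = 0 ∧ P.valuation E α < 1 := by
    by_contra hcon
    push Not at hcon
    have hroots : ∀ α ∈ (f.map ψ).roots, (1 : WithZero (Multiplicative ℤ)) ≤ P.valuation E α :=
      fun α hα => hcon α (isRoot_of_mem_roots hα)
    have hmon : (f.map ψ).Monic := hm.map ψ
    have h1 := hs.coeff_zero_eq_prod_roots_of_monic hmon
    have h2 : P.valuation E ((f.map ψ).coeff 0) < 1 := by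
      rw [coeff_map]
      have h4 : f.coeff 0 ∈ v.asIdeal := by
        have h5 := Ideal.pow_le_self two_ne_zero (hh 0)
        have h6 : f.coeff 0 = (f - (X ^ 3 - C π) * g).coeff 0 - π * g.coeff 0 := by
          rw [coeff_sub, mul_coeff_zero]
          simp
        rw [h6]
        exact v.asIdeal.sub_mem h5 (v.asIdeal.mul_mem_right _ hπ)
      rw [hval]
      have h5 : v.valuation K ((f.coeff 0 : 𝓞 K) : K) < 1 := by
        have h0 : v.valuation K ((f.coeff 0 : 𝓞 K) : K) = v.intValuation (f.coeff 0) :=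
          v.valuation_of_algebraMap _
        rw [h0]
        exact (v.intValuation_lt_one_iff_mem _).2 h4
      exact pow_lt_one' h5 he0.ne'
    rw [h1, map_mul, map_pow] at h2
    have h3 : P.valuation E (-1) = 1 := by rw [Valuation.map_neg, map_one]
    rw [h3, one_pow, one_mul, map_multiset_prod] at h2
    refine absurd h2 (not_lt.2 ?_)
    refine Multiset.one_le_prod fun x hx => ?_
    obtain ⟨α, hα, rfl⟩ := Multiset.mem_map.1 hx
    exact hroots α hα
  -- the equation
  have heq : (α ^ 3 - ψ π) * (g.map ψ).eval α = -((f - (X ^ 3 - C π) * g).map ψ).eval α := by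
    simp only [Polynomial.map_sub, Polynomial.map_mul, Polynomial.map_pow, map_X, map_C, eval_sub,
      eval_mul, eval_pow, eval_X, eval_C]
    rw [hα0]
    ring
  have hgv : P.valuation E ((g.map ψ).eval α) = 1 := by
    have h1 : (g.map ψ).eval α = ψ (g.coeff 0) + α * ((divX g).map ψ).eval α := by
      have h2 := congrArg (fun q : (𝓞 K)[X] => (q.map ψ).eval α) (divX_mul_X_add g)
      simp only [Polynomial.map_add, Polynomial.map_mul, map_X, map_C, eval_add, eval_mul, eval_X,
        eval_C] at h2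
      rw [← h2]
      ring
    have h2 : P.valuation E (ψ (g.coeff 0)) = 1 := by
      rw [hval]
      have h0 : v.valuation K ((g.coeff 0 : 𝓞 K) : K) = v.intValuation (g.coeff 0) :=
        v.valuation_of_algebraMap _
      rw [h0, HeightOneSpectrum.intValuation_eq_one_iff.2 hg0, one_pow]
    have h3 : P.valuation E (α * ((divX g).map ψ).eval α) < 1 := by
      rw [map_mul]
      refine mul_lt_one_of_lt_of_le hα1 ?_
      rw [eval_eq_sum, Polynomial.sum]
      refine Valuation.map_sum_le _ fun j _ => ?_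
      rw [map_mul, map_pow, coeff_map]
      exact mul_le_one' (hle1 _) (pow_le_one' hα1.le _)
    rw [h1, Valuation.map_add_eq_of_lt_left _ (by rw [h2]; exact h3), h2]
  have hhv : P.valuation E (((f - (X ^ 3 - C π) * g).map ψ).eval α) ≤
      WithZero.exp (-(2 * e : ℤ)) := by
    rw [eval_eq_sum, Polynomial.sum]
    refine Valuation.map_sum_le _ fun j _ => ?_
    rw [map_mul, map_pow, coeff_map]
    exact (mul_le_mul' (hsq _ (hh j)) (pow_le_one' hα1.le _)).trans_eq (mul_one _)
  have h5 : P.valuation E (α ^ 3 - ψ π) < P.valuation E (ψ π) := by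
    have h6 := congrArg (P.valuation E) heq
    rw [map_mul, hgv, mul_one, Valuation.map_neg] at h6
    rw [h6, hπv]
    refine hhv.trans_lt ?_
    rw [WithZero.exp_lt_exp]
    omega
  have h6 : P.valuation E (α ^ 3) = P.valuation E (ψ π) := by
    have h7 : α ^ 3 = ψ π + (α ^ 3 - ψ π) := by ring
    rw [h7]
    exact Valuation.map_add_eq_of_lt_left _ h5
  rw [map_pow, hπv] at h6
  have hα00 : α ≠ 0 := by
    rintro rfl
    rw [map_zero, zero_pow three_ne_zero] at h6
    exact WithZero.exp_ne_zero h6.symm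
  obtain ⟨a, ha⟩ : ∃ a : ℤ, P.valuation E α = WithZero.exp a := by
    obtain ⟨a, ha⟩ := WithZero.ne_zero_iff_exists.1 ((map_ne_zero (P.valuation E)).2 hα00)
    exact ⟨Multiplicative.toAdd a, ha.symm⟩
  rw [ha, ← WithZero.exp_nsmul, WithZero.exp_inj, nsmul_eq_mul] at h6
  apply h3
  have h8 : (e : ℤ) = 3 * (-a) := by
    push_cast at h6
    linarith
  have h9 : (3 : ℤ) ∣ (e : ℤ) := ⟨-a, h8⟩
  exact_mod_cast h9

end Pool.Agent.U442.Sel
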