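import Pool.Agent.U442.Sel.Perm
import Pool.Agent.U442.Sel.Cube
import Pool.Agent.X243.Gen.Full
import Pool.Agent.U442.Htj.EP
import Pool.Agent.U442.Gro.Main

/-!
The Galois data for one polynomial with a symmetric Galois group.
-/

set_option autoImplicit false

namespace Pool.Agent.U442.Sel

open Polynomial Equiv NumberField IsDedekindDomain
open Pool.Agent.X243.Gen (FullG)
open Pool.Agent.U442.Htj (TrivialModTwo GovernedBy)
open Pool.Agent.U442.Htj.EP (AbsoluteGaloisGroup)
open Pool.Agent.N197.AP (GD)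
open Pool.Agent.N171 (HypP)
open scoped Classical

section

variable {K F : Type} [Field K] [Field F] [Algebra K F]

/-- the action on the roots -/
noncomputable def actF (f : K[X]) (F : Type) [Field F] [Algebra K F] :
    (F ≃ₐ[K] F) →* Perm (f.rootSet F) :=
  MulAction.toPermHom (F ≃ₐ[K] F) (f.rootSet F)

theorem actF_apply (f : K[X]) (s : F ≃ₐ[K] F) (x : f.rootSet F) :
    ((actF f F s x : f.rootSet F) : F) = s x := rfl

theorem actF_surjective [Normal K F] {f : K[X]} (hsep : f.Separable)
    (hspl : (f.map (algebraMap K F)).Splits) (hfull : FullG f) :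
    Function.Surjective (actF f F) := by
  intro π
  let M : IntermediateField K F := IntermediateField.adjoin K (f.rootSet F)
  have hs : f.IsSplittingField K M := IntermediateField.adjoin_rootSet_isSplittingField hspl
  have hfd : FiniteDimensional K M := IsSplittingField.finiteDimensional M f
  have hgal : IsGalois K M := IsGalois.of_separable_splitting_field hsep
  have hmemM : ∀ x : M, x ∈ f.rootSet M ↔ (x : F) ∈ f.rootSet F := by
    intro x
    rw [mem_rootSet_of_ne hsep.ne_zero, mem_rootSet_of_ne hsep.ne_zero]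
    have h1 : aeval (x : F) f = algebraMap M F (aeval x f) := by
      rw [← aeval_algebraMap_apply]
      rfl
    rw [h1, map_eq_zero_iff _ (algebraMap M F).injective]
  let e : f.rootSet F ≃ f.rootSet M :=
    { toFun := fun x => ⟨⟨x, IntermediateField.subset_adjoin K _ x.2⟩, (hmemM _).2 x.2⟩
      invFun := fun y => ⟨(y : M), (hmemM _).1 y.2⟩
      left_inv := fun _ => rfl
      right_inv := fun _ => rfl }
  obtain ⟨τ, hτ⟩ := hfull M hs.splits (e.permCongr π)
  refine ⟨τ.liftNormal F, ?_⟩
  ext x
  have h1 := AlgEquiv.liftNormal_commutes τ F ((e x : f.rootSet M) : M)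
  have h2 : algebraMap M F ((e x : f.rootSet M) : M) = (x : F) := rfl
  have h3 : τ ((e x : f.rootSet M) : M) = ((e (π x) : f.rootSet M) : M) := by
    have h4 := congrArg (fun ρ : Perm (f.rootSet M) => ((ρ (e x) : f.rootSet M) : M)) hτ
    simp only [Equiv.permCongr_apply, Equiv.symm_apply_apply] at h4
    exact h4
  rw [h2, h3] at h1
  rw [actF_apply, h1]
  rfl

/-- from automorphisms over `E` to automorphisms over `L` -/
theorem toL' {L : Type} [Field L] [Algebra L F] {E : IntermediateField K F}
    (hL : ∀ x : L, algebraMap L F x ∈ E) {s : F ≃ₐ[K] F}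
    (hs : s ∈ E.fixingSubgroup) : ∃ s' : F ≃ₐ[L] F, (∀ x ∈ E, s' x = x) ∧ ∀ x, s' x = s x := by
  rw [IntermediateField.mem_fixingSubgroup_iff] at hs
  exact ⟨AlgEquiv.ofRingEquiv (f := s.toRingEquiv) fun x => hs _ (hL x), fun x hx => hs x hx,
    fun x => rfl⟩

theorem exists_moved' [IsGalois K F] (E : IntermediateField K F)
    {x : F} (hx : x ∉ E) : ∃ s ∈ E.fixingSubgroup, s x ≠ x := by
  by_contra hcon
  push Not at hcon
  apply hx
  rw [← InfiniteGalois.fixedField_fixingSubgroup E, IntermediateField.mem_fixedField_iff]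
  exact hcon

end

theorem gd_one {K : Type} [Field K] [NumberField K] {f : K[X]} (hm : f.Monic) (hsep : f.Separable)
    (h7 : 7 ≤ f.natDegree) (hfull : FullG f) {L : Type} [Field L] [NumberField L] [Algebra K L]
    {E : IntermediateField K (AlgebraicClosure L)}
    (hE : Normal K E) (hL : ∀ x : L, algebraMap L (AlgebraicClosure L) x ∈ E) {d : ℕ}
    (t : AbsoluteGaloisGroup L →* Matrix (Fin d) (Fin d) ℤ_[2])
    (ht : ∀ s : AbsoluteGaloisGroup L, (∀ x ∈ E, s x = x) → TrivialModTwo t s)
    (hx : ∃ x ∈ f.rootSet (AlgebraicClosure L), x ∉ E) {M : Type}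
    [AddCommGroup M] [Module ℚ_[2] M] {ν : Representation ℚ_[2] (AbsoluteGaloisGroup L) M}
    (hν : GovernedBy t ν) :
    GD (fun _ : Unit => f.map (algebraMap K L)) ν := by
  have halg : Algebra.IsAlgebraic K (AlgebraicClosure L) :=
    Algebra.IsAlgebraic.trans K L (AlgebraicClosure L)
  have hcl : IsAlgClosure K (AlgebraicClosure L) := ⟨inferInstance, halg⟩
  have hnormal : Normal K (AlgebraicClosure L) := IsAlgClosure.normal K _
  have hgal : IsGalois K (AlgebraicClosure L) := ⟨⟩
  have hgalE : IsGalois K E := ⟨⟩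
  have hN : E.fixingSubgroup.Normal := inferInstance
  have hspl : (f.map (algebraMap K (AlgebraicClosure L))).Splits := IsAlgClosed.splits _
  have hsurj := actF_surjective (F := AlgebraicClosure L) hsep hspl hfull
  have hcard : Fintype.card (f.rootSet (AlgebraicClosure L)) = f.natDegree :=
    card_rootSet_eq_natDegree hsep hspl
  have hmem : ∀ x : AlgebraicClosure L, x ∈ (f.map (algebraMap K L)).rootSet (AlgebraicClosure L) ↔
      x ∈ f.rootSet (AlgebraicClosure L) := by
    intro x
    rw [mem_rootSet_of_ne (hm.map (algebraMap K L)).ne_zero, mem_rootSet_of_ne hm.ne_zero,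
      aeval_map_algebraMap]
  obtain ⟨x, hx, hxE⟩ := hx
  obtain ⟨s, hs, hsx⟩ := exists_moved' E hxE
  have hne : actF f (AlgebraicClosure L) s ≠ 1 := by
    intro h
    apply hsx
    have := congrArg (fun g : Perm (f.rootSet (AlgebraicClosure L)) =>
      ((g ⟨x, hx⟩ : f.rootSet (AlgebraicClosure L)) : AlgebraicClosure L)) h
    exact this
  refine Pool.Agent.U442.Htj.EP.gd_of_governed _ (fun i => ?_) (fun i π hπ => ?_)
    (fun i j hij => absurd (Subsingleton.elim j i) hij) (fun i => ?_) hν
  · rw [natDegree_map]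
    exact h7
  · let e : (f.map (algebraMap K L)).rootSet (AlgebraicClosure L) ≃
        f.rootSet (AlgebraicClosure L) := Equiv.subtypeEquivRight hmem
    obtain ⟨g, hg, hgπ⟩ := alt_of_ne (actF f (AlgebraicClosure L)) hsurj
      (by rw [hcard]; omega) E.fixingSubgroup hN hs hne (e.permCongr π)
      (by rw [Equiv.Perm.sign_permCongr]; exact hπ)
    obtain ⟨s', h1, h2⟩ := toL' hL hg
    refine ⟨s', fun y => ?_⟩
    have h := congrArg (fun ρ : Perm (f.rootSet (AlgebraicClosure L)) =>
      ((ρ (e y) : f.rootSet (AlgebraicClosure L)) : AlgebraicClosure L)) hgπ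
    simp only [Equiv.permCongr_apply, Equiv.symm_apply_apply] at h
    rw [h2]
    exact h
  · obtain ⟨s', h1, h2⟩ := toL' hL hs
    exact ⟨s', ht s' h1, x, (hmem x).2 hx, by rw [h2]; exact hsx⟩

/-- a root outside of `E` -/
theorem outside_of_cubic {K : Type} [Field K] [NumberField K] {v : HeightOneSpectrum (𝓞 K)}
    {f : (𝓞 K)[X]} (hf : CubicAt v f) (hm : f.Monic) {F : Type} [Field F] [Algebra K F]
    [IsAlgClosed F] {E : IntermediateField K F} [NumberField E] {P : HeightOneSpectrum (𝓞 E)}
    (hP : P.asIdeal.LiesOver v.asIdeal) (h3 : ¬ 3 ∣ v.asIdeal.ramificationIdx' P.asIdeal) :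
    ∃ x ∈ (f.map (algebraMap (𝓞 K) K)).rootSet F, x ∉ E := by
  by_contra hcon
  push Not at hcon
  apply cubic hf hm hP h3
  have h1 : ((f.map (algebraMap (𝓞 K) K)).map (algebraMap K F)).Splits := IsAlgClosed.splits _
  exact IntermediateField.splits_of_splits h1 hcon

end Pool.Agent.U442.Sel
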