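import Pool.Agent.U442.Sel.Any
import Pool.Agent.U442.Sel.Gen

/-!
The Galois data over number fields from normal extensions which do not contain the roots.
-/

set_option autoImplicit false

namespace Pool.Agent.U442.Sel

open Polynomial Pool.Agent.N171
open Pool.Agent.U442.Htj (TrivialModTwo GovernedBy alt_le_map_normal)
open Pool.Agent.N197.AP (GD)
open scoped Classical

theorem gd_of_fields {K L F : Type} [Field K] [Field L] [Field F] [Algebra K L]
    [Algebra L F] [Algebra K F] [IsScalarTower K L F] [IsAlgClosure L F] [IsAlgClosure K F]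
    {ι : Type} (f : ι → K[X]) (hm : ∀ i, (f i).Monic) (hsep : ∀ i, (f i).Separable)
    (h7 : ∀ i, 7 ≤ (f i).natDegree)
    (hG : ∀ i, ∀ π : Equiv.Perm ((f i).rootSet F), Equiv.Perm.sign π = 1 →
      ∃ s : F ≃ₐ[K] F, ∀ x : (f i).rootSet F, s (x : F) = (π x : F))
    {d : ℕ} {t : (F ≃ₐ[L] F) →* Matrix (Fin d) (Fin d) ℤ_[2]}
    (hA : ∀ i, ∃ M : IntermediateField K F, Normal K M ∧
      (∀ x : L, algebraMap L F x ∈ M) ∧
      (∀ s : F ≃ₐ[L] F, (∀ x ∈ M, s x = x) → TrivialModTwo t s) ∧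
      (∀ j, j ≠ i → ∀ x ∈ (f j).rootSet F, x ∈ M) ∧ ∃ x ∈ (f i).rootSet F, x ∉ M)
    {N : Type} [AddCommGroup N] [Module ℚ_[2] N] {ν : Representation ℚ_[2] (F ≃ₐ[L] F) N}
    (hν : GovernedBy t ν) : GD (fun i => (f i).map (algebraMap K L)) ν := by
  have hF : IsAlgClosed F := IsAlgClosure.isAlgClosed K
  have hmem : ∀ (i : ι) (x : F), x ∈ ((f i).map (algebraMap K L)).rootSet F ↔
      x ∈ (f i).rootSet F := by
    intro i x
    rw [mem_rootSet_of_ne ((hm i).map (algebraMap K L)).ne_zero,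
      mem_rootSet_of_ne (hm i).ne_zero, aeval_map_algebraMap]
  -- automorphisms over `L`
  have hL : ∀ (M : IntermediateField K F), (∀ x : L, algebraMap L F x ∈ M) →
      ∀ s ∈ M.fixingSubgroup, ∃ s' : F ≃ₐ[L] F, (∀ x ∈ M, s' x = x) ∧ ∀ x, s' x = s x := by
    intro M hM s hs
    rw [IntermediateField.mem_fixingSubgroup_iff] at hs
    exact ⟨AlgEquiv.ofRingEquiv (f := s.toRingEquiv) fun x => hs _ (hM x), fun x hx => hs x hx,
      fun x => rfl⟩
  refine Pool.Agent.U442.Htj.EP.gd_of_governed _ (fun i => by rw [natDegree_map]; exact h7 i)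
    (fun i π hπ => ?_) (fun i j hij => ?_) (fun i => ?_) hν
  · obtain ⟨M, hM, hLM, -, -, x, hx, hxM⟩ := hA i
    have hKF : Normal K F := IsAlgClosure.normal K F
    have hN : M.fixingSubgroup.Normal := fixing_normal M hM
    let φ : (F ≃ₐ[K] F) →* Equiv.Perm ((f i).rootSet F) :=
      MulAction.toPermHom (F ≃ₐ[K] F) ((f i).rootSet F)
    have hφa : ∀ s (x : (f i).rootSet F), ((φ s x : (f i).rootSet F) : F) = s x :=
      fun s x => rfl
    have hφ : alternatingGroup ((f i).rootSet F) ≤ φ.range := by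
      intro π hπ
      obtain ⟨s, hs⟩ := hG i π (Equiv.Perm.mem_alternatingGroup.1 hπ)
      refine ⟨s, ?_⟩
      ext x
      rw [hφa, hs]
    obtain ⟨s, hs, hsx⟩ := exists_moved_sep M (hsep i) hx hxM
    have hcard : Nat.card ((f i).rootSet F) = (f i).natDegree := by
      rw [Nat.card_eq_fintype_card, card_rootSet_eq_natDegree (hsep i) (IsAlgClosed.splits _)]
    have halt := alt_le_map_normal (by rw [hcard]; exact (by norm_num : 5 ≤ 7).trans (h7 i)) φ
      hφ M.fixingSubgroup ⟨s, hs, fun h => hsx (by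
        have := congrArg (fun g : Equiv.Perm ((f i).rootSet F) =>
          ((g ⟨x, hx⟩ : (f i).rootSet F) : F)) h
        exact this)⟩
    let e : ((f i).map (algebraMap K L)).rootSet F ≃ (f i).rootSet F :=
      Equiv.subtypeEquivRight (hmem i)
    obtain ⟨g, hg, hgπ⟩ := halt (Equiv.Perm.mem_alternatingGroup.2
      (show Equiv.Perm.sign (e.permCongr π) = 1 by rw [Equiv.Perm.sign_permCongr]; exact hπ))
    obtain ⟨s', h1, h2⟩ := hL M hLM g hg
    refine ⟨s', fun y => ?_⟩
    have h := congrArg (fun ρ : Equiv.Perm ((f i).rootSet F) =>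
      ((ρ (e y) : (f i).rootSet F) : F)) hgπ
    simp only [Equiv.permCongr_apply, Equiv.symm_apply_apply] at h
    rw [h2]
    exact h
  · obtain ⟨M, hM, hLM, -, hj, x, hx, hxM⟩ := hA i
    obtain ⟨s, hs, hsx⟩ := exists_moved_sep M (hsep i) hx hxM
    obtain ⟨s', h1, h2⟩ := hL M hLM s hs
    exact ⟨s', fun y hy => h1 y (hj j hij y ((hmem j y).1 hy)), x, (hmem i x).2 hx, by
      rw [h2]; exact hsx⟩
  · obtain ⟨M, hM, hLM, ht, -, x, hx, hxM⟩ := hA i
    obtain ⟨s, hs, hsx⟩ := exists_moved_sep M (hsep i) hx hxM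
    obtain ⟨s', h1, h2⟩ := hL M hLM s hs
    exact ⟨s', ht s' h1, x, (hmem i x).2 hx, by rw [h2]; exact hsx⟩

end Pool.Agent.U442.Sel
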