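import Pool.Agent.U442.Sel.Gen

/-!
Explicit congruence conditions: definitions and the Galois group.
-/

set_option autoImplicit false

namespace Pool.Agent.U442.Sel

open Polynomial NumberField IsDedekindDomain
open Pool.Agent.X243.Gen (FullG)

variable {K : Type} [Field K] [NumberField K]

/-- The polynomial `f` of degree `n` is irreducible modulo `p 0`, has an irreducible factor of degree
`n - 1` modulo `p 1`, and is the product of an irreducible quadratic polynomial and of `n - 2` different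
linear factors modulo `p 2`. -/
def FullReductions (p : Fin 3 → HeightOneSpectrum (𝓞 K)) (n : ℕ) (f : (𝓞 K)[X]) : Prop :=
  Irreducible (f.map (Ideal.Quotient.mk (p 0).asIdeal)) ∧
  (∃ g : (𝓞 K ⧸ (p 1).asIdeal)[X], Irreducible g ∧ g.natDegree + 1 = n ∧
    g ∣ f.map (Ideal.Quotient.mk (p 1).asIdeal)) ∧
  ∃ (g : (𝓞 K ⧸ (p 2).asIdeal)[X]) (S : Finset (𝓞 K ⧸ (p 2).asIdeal)), g.Monic ∧ Irreducible g ∧
    g.natDegree = 2 ∧ S.card + 2 = n ∧
    f.map (Ideal.Quotient.mk (p 2).asIdeal) = g * ∏ c ∈ S, (X - C c)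

theorem full_of_reductions {p : Fin 3 → HeightOneSpectrum (𝓞 K)} {n : ℕ} (hn : 3 ≤ n)
    {f : (𝓞 K)[X]} (hm : f.Monic) (hd : f.natDegree = n) (h : FullReductions p n f) :
    (f.map (algebraMap (𝓞 K) K)).Separable ∧ FullG (f.map (algebraMap (𝓞 K) K)) := by
  obtain ⟨h1, ⟨g2, h2a, h2b, h2c⟩, g3, S, h3a, h3b, h3c, h3d, h3e⟩ := h
  have hmax : ∀ i, (p i).asIdeal.IsMaximal := fun i => (p i).isMaximal
  have hfin : ∀ i, Finite (𝓞 K ⧸ (p i).asIdeal) := fun i =>
    Ideal.finiteQuotientOfFreeOfNeBot _ (p i).ne_bot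
  have hdeg : ∀ i, (f.map (Ideal.Quotient.mk (p i).asIdeal)).natDegree = n := by
    intro i
    have : Nontrivial (𝓞 K ⧸ (p i).asIdeal) := Ideal.Quotient.nontrivial_iff.2 (p i).isPrime.ne_top
    rw [hm.natDegree_map, hd]
  have := hmax 0
  have := hmax 1
  have := hmax 2
  have := hfin 0
  have := hfin 1
  have := hfin 2
  have hnt : Nontrivial (𝓞 K ⧸ (p 2).asIdeal) := Ideal.Quotient.nontrivial_iff.2 (p 2).isPrime.ne_top
  have h3' : Pool.Agent.X243.Sol.I3 n (f.map (Ideal.Quotient.mk (p 2).asIdeal)) := by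
    refine ⟨1, g3, S, one_ne_zero, h3a, h3b, h3c, h3d, ?_⟩
    rw [h3e, C_1, one_mul]
  exact (Pool.Agent.X243.Gen.gen_full (R := 𝓞 K) (k := K) (m1 := (p 0).asIdeal)
    (m2 := (p 1).asIdeal) (m3 := (p 2).asIdeal) hn hd.le ⟨h1, hdeg 0⟩
    ⟨hdeg 1, g2, h2a, h2b, h2c⟩ h3').2

end Pool.Agent.U442.Sel
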