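import Mathlib

/-!
The discriminant of `X ^ n - X - 1`.
-/

set_option autoImplicit false

namespace Pool.Agent.U442.Sel

open Polynomial Equiv Finset

/-- the roots of `X ^ n - X - 1` -/
abbrev RT (n : ℕ) (F : Type) [Field F] : Type := {x : F // x ^ n = x + 1}

/-- the action of the automorphisms on the roots -/
def act (n : ℕ) (k F : Type) [Field k] [Field F] [Algebra k F] : (F ≃ₐ[k] F) →* Perm (RT n F) where
  toFun s :=
    { toFun := fun x => ⟨s x, by rw [← map_pow, x.2, map_add, map_one]⟩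
      invFun := fun x => ⟨s.symm x, by rw [← map_pow, x.2, map_add, map_one]⟩
      left_inv := fun x => Subtype.ext (s.symm_apply_apply _)
      right_inv := fun x => Subtype.ext (s.apply_symm_apply _) }
  map_one' := rfl
  map_mul' _ _ := rfl

theorem act_apply {n : ℕ} {k F : Type} [Field k] [Field F] [Algebra k F] (s : F ≃ₐ[k] F)
    (x : RT n F) : ((act n k F s x : RT n F) : F) = s x := rfl

theorem monicP {F : Type} [Field F] {n : ℕ} (hn : 2 ≤ n) : (X ^ n - X - 1 : F[X]).Monic := by
  have : (X ^ n - X - 1 : F[X]) = X ^ n - (X + 1) := by ring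
  rw [this]
  apply monic_X_pow_sub
  have : (X + 1 : F[X]).degree = 1 := by
    have := degree_X_add_C (1 : F)
    simpa using this
  rw [this]
  exact_mod_cast hn

theorem degP {F : Type} [Field F] {n : ℕ} (hn : 2 ≤ n) : (X ^ n - X - 1 : F[X]).natDegree = n := by
  have : (X ^ n - X - 1 : F[X]) = X ^ n - (X + 1) := by ring
  rw [this]
  have h1 : (X + 1 : F[X]).natDegree < (X ^ n : F[X]).natDegree := by
    rw [natDegree_X_pow]
    have : (X + 1 : F[X]).natDegree ≤ 1 := by
      have := natDegree_X_add_C (1 : F)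
      simpa using this.le
    omega
  rw [natDegree_sub_eq_left_of_natDegree_lt h1, natDegree_X_pow]

theorem sepP {F : Type} [Field F] [CharZero F] {n : ℕ} (hn : 2 ≤ n) :
    (X ^ n - X - 1 : F[X]).Separable := by
  have h1 : (X ^ n - X - 1 : ℚ[X]).Separable :=
    (X_pow_sub_X_sub_one_irreducible_rat (by omega)).separable
  have h2 := h1.map (f := algebraMap ℚ F)
  simpa using h2

theorem exists_enum {F : Type} [Field F] [CharZero F] [IsAlgClosed F] {n : ℕ} (hn : 2 ≤ n) :
    ∃ e : Fin n ≃ RT n F, (X ^ n - X - 1 : F[X]) = ∏ i, (X - C (e i : F)) := by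
  classical
  set p : F[X] := X ^ n - X - 1 with hp
  have hmon : p.Monic := monicP hn
  have hdeg : p.natDegree = n := degP hn
  have hnd : p.roots.Nodup := nodup_roots (sepP hn)
  have hcard : Multiset.card p.roots = p.natDegree :=
    (splits_iff_card_roots.1 (IsAlgClosed.splits p))
  have hprod : p = ∏ r ∈ p.roots.toFinset, (X - C r) := by
    have h1 := prod_multiset_X_sub_C_of_monic_of_roots_card_eq hmon hcard
    rw [Finset.prod_multiset_map_count] at h1
    refine h1.symm.trans (Finset.prod_congr rfl fun r hr => ?_)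
    rw [Multiset.count_eq_one_of_mem hnd (Multiset.mem_toFinset.1 hr), pow_one]
  have hc : p.roots.toFinset.card = n := by
    rw [Multiset.toFinset_card_of_nodup hnd, hcard, hdeg]
  have hmem : ∀ x : F, x ∈ p.roots.toFinset ↔ x ^ n = x + 1 := by
    intro x
    rw [Multiset.mem_toFinset, mem_roots hmon.ne_zero, IsRoot.def, hp]
    simp only [eval_sub, eval_pow, eval_X, eval_one]
    constructor
    · intro h
      linear_combination h
    · intro h
      linear_combination h
  let e1 : Fin n ≃ p.roots.toFinset := (p.roots.toFinset.equivFinOfCardEq hc).symm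
  let e2 : p.roots.toFinset ≃ RT n F := Equiv.subtypeEquivRight hmem
  refine ⟨e1.trans e2, ?_⟩
  rw [← Finset.prod_coe_sort] at hprod
  exact hprod.trans (Equiv.prod_comp e1 (fun x : p.roots.toFinset => (X - C (x : F)))).symm

section

variable {F : Type} [Field F] {n : ℕ}

theorem prod_split (v : Fin n → F) : ∏ i, ∏ j ∈ Finset.univ.erase i, (v i - v j) =
    (∏ i : Fin n, ∏ _j ∈ Finset.Ioi i, (-1 : F)) * (∏ i : Fin n, ∏ j ∈ Finset.Ioi i, (v j - v i)) ^ 2 := by
  have h1 : ∀ i : Fin n, ∏ j ∈ Finset.univ.erase i, (v i - v j) =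
      (∏ j ∈ Finset.Iio i, (v i - v j)) * ∏ j ∈ Finset.Ioi i, (v i - v j) := by
    intro i
    rw [← Finset.prod_union]
    · congr 1
      ext j
      simp only [Finset.mem_erase, Finset.mem_univ, and_true, Finset.mem_union, Finset.mem_Iio,
        Finset.mem_Ioi]
      exact ne_iff_lt_or_gt
    · rw [Finset.disjoint_left]
      intro j h1 h2
      rw [Finset.mem_Iio] at h1
      rw [Finset.mem_Ioi] at h2
      exact absurd h1 (not_lt.2 h2.le)
  rw [Finset.prod_congr rfl fun i _ => h1 i, Finset.prod_mul_distrib]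
  have h2 : ∏ i : Fin n, ∏ j ∈ Finset.Iio i, (v i - v j) =
      ∏ i : Fin n, ∏ j ∈ Finset.Ioi i, (v j - v i) := by
    refine Finset.prod_comm' ?_
    intro x y
    simp only [Finset.mem_univ, Finset.mem_Iio, true_and, Finset.mem_Ioi, and_true]
  have h3 : ∏ i : Fin n, ∏ j ∈ Finset.Ioi i, (v i - v j) =
      (∏ i : Fin n, ∏ _j ∈ Finset.Ioi i, (-1 : F)) *
        ∏ i : Fin n, ∏ j ∈ Finset.Ioi i, (v j - v i) := by
    rw [← Finset.prod_mul_distrib]
    refine Finset.prod_congr rfl fun i _ => ?_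
    rw [← Finset.prod_mul_distrib]
    exact Finset.prod_congr rfl fun j _ => by ring
  rw [h2, h3]
  ring

theorem prod_neg_one : (∏ i : Fin n, ∏ _j ∈ Finset.Ioi i, (-1 : F)) = 1 ∨
    (∏ i : Fin n, ∏ _j ∈ Finset.Ioi i, (-1 : F)) = -1 := by
  have : (∏ i : Fin n, ∏ _j ∈ Finset.Ioi i, (-1 : F)) =
      (-1) ^ (∑ i : Fin n, (Finset.Ioi i).card) := by
    rw [← Finset.prod_pow_eq_pow_sum]
    exact Finset.prod_congr rfl fun i _ => by rw [Finset.prod_const]
  rw [this]
  exact neg_one_pow_eq_or F _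

theorem prod_neg_one_eq (hn : n % 4 = 1) :
    (∏ i : Fin n, ∏ _j ∈ Finset.Ioi i, (-1 : F)) = 1 := by
  have h1 : (∏ i : Fin n, ∏ _j ∈ Finset.Ioi i, (-1 : F)) =
      (-1) ^ (∑ i : Fin n, (Finset.Ioi i).card) := by
    rw [← Finset.prod_pow_eq_pow_sum]
    exact Finset.prod_congr rfl fun i _ => by rw [Finset.prod_const]
  have h2 : ∑ i : Fin n, (Finset.Ioi i).card = ∑ i ∈ Finset.range n, i := by
    simp only [Fin.card_Ioi]
    rw [Fin.sum_univ_eq_sum_range (fun i => n - 1 - i) n]
    exact Finset.sum_range_reflect (fun i => i) n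
  have h3 := Finset.sum_range_id_mul_two n
  rw [h1, h2]
  apply Even.neg_one_pow
  obtain ⟨k, rfl⟩ : ∃ k, n = 4 * k + 1 := ⟨n / 4, by omega⟩
  refine ⟨(4 * k + 1) * k, ?_⟩
  have h4 : (∑ i ∈ Finset.range (4 * k + 1), i) * 2 = (4 * k + 1) * (4 * k) := by
    rw [h3]
    simp
  nlinarith

/-- the product of the differences -/
theorem disc_eq [CharZero F] (hn : 2 ≤ n) (ho : Odd n) {v : Fin n → F}
    (hv : (X ^ n - X - 1 : F[X]) = ∏ i, (X - C (v i))) :
    ∏ i, ∏ j ∈ Finset.univ.erase i, (v i - v j) = (n : F) ^ n - ((n : F) - 1) ^ (n - 1) := by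
  have hnod : (X ^ n - X - 1 : F[X]) = Lagrange.nodal Finset.univ v := hv
  have hev : ∀ x : F, x ^ n - x - 1 = ∏ i, (x - v i) := by
    intro x
    have h := congrArg (eval x) hnod
    rw [Lagrange.eval_nodal] at h
    simpa using h
  have hroot : ∀ i, v i ^ n = v i + 1 := by
    intro i
    have h := hev (v i)
    rw [Finset.prod_eq_zero (Finset.mem_univ i) (sub_self _)] at h
    linear_combination h
  have hder : ∀ i, ∏ j ∈ Finset.univ.erase i, (v i - v j) = (n : F) * v i ^ (n - 1) - 1 := by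
    intro i
    rw [← Lagrange.eval_nodal, ← Lagrange.eval_nodal_derivative_eval_node_eq (Finset.mem_univ i),
      ← hnod]
    simp [derivative_X_pow]
  have hprod1 : ∏ i, v i = 1 := by
    have h := hev 0
    rw [zero_pow (by omega)] at h
    have h1 : ∏ i, (0 - v i) = -∏ i, v i := by
      have : ∀ i, (0 : F) - v i = (-1) * v i := fun i => by ring
      rw [Finset.prod_congr rfl fun i _ => this i, Finset.prod_mul_distrib, Finset.prod_const,
        Finset.card_univ, Fintype.card_fin, ho.neg_one_pow]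
      ring
    rw [h1] at h
    linear_combination h
  have hne : ((n : F) - 1) ≠ 0 := by
    have : ((n : F) - 1) = ((n - 1 : ℕ) : F) := by
      rw [Nat.cast_sub (by omega), Nat.cast_one]
    rw [this]
    exact_mod_cast (show n - 1 ≠ 0 by omega)
  have hmul : ∀ i, v i * ((n : F) * v i ^ (n - 1) - 1) =
      (-((n : F) - 1)) * (-(n : F) / ((n : F) - 1) - v i) := by
    intro i
    have h1 : v i * v i ^ (n - 1) = v i + 1 := by
      rw [← pow_succ', Nat.sub_add_cancel (by omega), hroot i]
    have h2 : (-((n : F) - 1)) * (-(n : F) / ((n : F) - 1) - v i) = n + (n - 1) * v i := by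
      field_simp
      ring
    rw [h2]
    linear_combination (n : F) * h1
  have h1 : ∏ i, ((n : F) * v i ^ (n - 1) - 1) =
      ∏ i, ((-((n : F) - 1)) * (-(n : F) / ((n : F) - 1) - v i)) := by
    rw [← Finset.prod_congr rfl fun i _ => hmul i, Finset.prod_mul_distrib, hprod1, one_mul]
  rw [Finset.prod_congr rfl fun i _ => hder i, h1, Finset.prod_mul_distrib, ← hev, Finset.prod_const,
    Finset.card_univ, Fintype.card_fin, ho.neg_pow]
  have h2 : (-(n : F) / ((n : F) - 1)) ^ n = -((n : F) ^ n / ((n : F) - 1) ^ n) := by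
    rw [div_pow, ho.neg_pow, neg_div]
  rw [h2]
  have h3 : ((n : F) - 1) ^ n = ((n : F) - 1) ^ (n - 1) * ((n : F) - 1) := by
    rw [← pow_succ, Nat.sub_add_cancel (by omega)]
  have h4 : ((n : F) - 1) ^ n ≠ 0 := pow_ne_zero _ hne
  have h5 : -((n : F) - 1) ^ n * (-((n : F) ^ n / ((n : F) - 1) ^ n) - -(n : F) / ((n : F) - 1) - 1) =
      (n : F) ^ n - ((n : F) - 1) ^ n * ((n : F) / ((n : F) - 1)) + ((n : F) - 1) ^ n := by
    field_simp
    ring
  rw [h5]
  have h6 : ((n : F) - 1) ^ n * ((n : F) / ((n : F) - 1)) = ((n : F) - 1) ^ (n - 1) * n := by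
    rw [h3]
    field_simp
  rw [h6, h3]
  ring

end

/-- A square root of the discriminant up to sign. -/
theorem exists_delta {F : Type} [Field F] [CharZero F] [IsAlgClosed F] {n : ℕ} (hn : 2 ≤ n)
    (ho : Odd n) [Fintype (RT n F)] [DecidableEq (RT n F)] : ∃ δ : F,
    (δ ^ 2 = (n : F) ^ n - ((n : F) - 1) ^ (n - 1) ∨
      δ ^ 2 = -((n : F) ^ n - ((n : F) - 1) ^ (n - 1))) ∧
    (n % 4 = 1 → δ ^ 2 = (n : F) ^ n - ((n : F) - 1) ^ (n - 1)) ∧
    ∀ (k : Type) [Field k] [Algebra k F] (s : F ≃ₐ[k] F),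
      s δ = ((Perm.sign (act n k F s) : ℤ) : F) * δ := by
  obtain ⟨e, he⟩ := exists_enum (F := F) hn
  refine ⟨Matrix.det (Matrix.vandermonde fun i => (e i : F)), ?_, fun h4 => ?_, fun k _ _ s => ?_⟩
  · have h1 := disc_eq hn ho he
    rw [prod_split] at h1
    rw [Matrix.det_vandermonde]
    rcases prod_neg_one (F := F) (n := n) with h | h
    · left
      rw [h, one_mul] at h1
      exact h1
    · right
      rw [h] at h1
      linear_combination -h1
  · have h1 := disc_eq hn ho he
    rw [prod_split, prod_neg_one_eq h4, one_mul] at h1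
    rw [Matrix.det_vandermonde]
    exact h1
  · have h1 : s (Matrix.det (Matrix.vandermonde fun i => (e i : F))) =
        Matrix.det (Matrix.vandermonde fun i => s (e i : F)) := by
      rw [Matrix.det_vandermonde, Matrix.det_vandermonde]
      simp only [map_prod, map_sub]
    rw [h1]
    have h2 : (Matrix.vandermonde fun i => s (e i : F)) =
        (Matrix.vandermonde fun i => (e i : F)).submatrix (e.symm.permCongr (act n k F s)) id := by
      ext i j
      simp [Matrix.vandermonde_apply, Equiv.permCongr_apply, act_apply]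
    rw [h2, Matrix.det_permute, Equiv.Perm.sign_permCongr]

end Pool.Agent.U442.Sel
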