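import Pool.Agent.U442.Sel.Cong

/-!
Existence of the congruence classes.
-/

set_option autoImplicit false

namespace Pool.Agent.U442.Sel

open Polynomial NumberField IsDedekindDomain
open scoped Classical

theorem exists_irr {k : Type} [Field k] [Finite k] {n : ℕ} (hn : n ≠ 0) :
    ∃ g : k[X], g.Monic ∧ Irreducible g ∧ g.natDegree = n := by
  obtain ⟨p, hp⟩ := CharP.exists k
  have hprime : p.Prime := by
    rcases CharP.char_is_prime_or_zero k p with h | h
    · exact h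
    · subst h
      have : CharZero k := CharP.charP_to_charZero k
      exact absurd (inferInstance : Finite k) (not_finite_iff_infinite.2 inferInstance)
  have := Fact.mk hprime
  have : NeZero n := ⟨hn⟩
  obtain ⟨α, hα⟩ := Field.exists_primitive_element k (FiniteField.Extension k p n)
  have hint : IsIntegral k α := IsIntegral.of_finite k α
  refine ⟨minpoly k α, minpoly.monic hint, minpoly.irreducible hint, ?_⟩
  rw [(Field.primitive_element_iff_minpoly_natDegree_eq k α).1 hα,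
    FiniteField.finrank_extension]

variable {K : Type} [Field K] [NumberField K]

theorem exists_unif (v : HeightOneSpectrum (𝓞 K)) : ∃ π : 𝓞 K, π ∈ v.asIdeal ∧ π ∉ v.asIdeal ^ 2 := by
  obtain ⟨π, hπ⟩ := v.intValuation_exists_uniformizer
  refine ⟨π, ?_, fun h => ?_⟩
  · have h1 := (v.intValuation_le_pow_iff_mem π 1).1 (by rw [hπ]; exact le_of_eq (by simp))
    rwa [pow_one] at h1
  · have h1 := (v.intValuation_le_pow_iff_mem π 2).2 h
    rw [hπ, WithZero.exp_le_exp] at h1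
    norm_num at h1

theorem exists_lift {A B : Type} [CommRing A] [CommRing B] (φ : A →+* B)
    (hφ : Function.Surjective φ) (G : B[X]) : ∃ H : A[X], H.map φ = G :=
  Polynomial.map_surjective φ hφ G

theorem exists_class (v : HeightOneSpectrum (𝓞 K)) (p : Fin 3 → HeightOneSpectrum (𝓞 K))
    (hp : Function.Injective p) (hv : ∀ i, v ≠ p i) {n : ℕ} (hn : 4 ≤ n)
    (hcard : n ≤ Nat.card (𝓞 K ⧸ (p 2).asIdeal)) :
    ∃ f₀ : (𝓞 K)[X], f₀.Monic ∧ f₀.natDegree = n ∧ ∀ f : (𝓞 K)[X], f.Monic → f.natDegree = n →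
      (∀ j, (f - f₀).coeff j ∈ (p 0).asIdeal ⊓ (p 1).asIdeal ⊓ (p 2).asIdeal ⊓ v.asIdeal ^ 2) →
      FullReductions p n f ∧ CubicAt v f := by
  have hmax : ∀ i, (p i).asIdeal.IsMaximal := fun i => (p i).isMaximal
  have hfin : ∀ i, Finite (𝓞 K ⧸ (p i).asIdeal) := fun i =>
    Ideal.finiteQuotientOfFreeOfNeBot _ (p i).ne_bot
  let _ : ∀ i, Field (𝓞 K ⧸ (p i).asIdeal) := fun i => Ideal.Quotient.field _
  obtain ⟨g0, g0m, g0i, g0d⟩ := exists_irr (k := 𝓞 K ⧸ (p 0).asIdeal) (n := n) (by omega)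
  obtain ⟨g1, g1m, g1i, g1d⟩ := exists_irr (k := 𝓞 K ⧸ (p 1).asIdeal) (n := n - 1) (by omega)
  obtain ⟨g2, g2m, g2i, g2d⟩ := exists_irr (k := 𝓞 K ⧸ (p 2).asIdeal) (n := 2) (by omega)
  obtain ⟨S, hS⟩ : ∃ S : Finset (𝓞 K ⧸ (p 2).asIdeal), S.card = n - 2 := by
    let _ := Fintype.ofFinite (𝓞 K ⧸ (p 2).asIdeal)
    obtain ⟨S, _, hS⟩ := Finset.exists_subset_card_eq
      (s := (Finset.univ : Finset (𝓞 K ⧸ (p 2).asIdeal))) (n := n - 2) (by
        rw [Finset.card_univ, ← Nat.card_eq_fintype_card]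
        omega)
    exact ⟨S, hS⟩
  obtain ⟨π, hπ1, hπ2⟩ := exists_unif v
  -- the polynomials modulo the ideals
  have hG1m : (X * g1).Monic := monic_X.mul g1m
  have hG1d : (X * g1).natDegree = n := by
    rw [monic_X.natDegree_mul g1m, natDegree_X, g1d]
    omega
  have hSm : (∏ c ∈ S, (X - C c)).Monic := monic_prod_X_sub_C (fun c => c) S
  have hG2m : (g2 * ∏ c ∈ S, (X - C c)).Monic := g2m.mul hSm
  have hG2d : (g2 * ∏ c ∈ S, (X - C c)).natDegree = n := by
    rw [g2m.natDegree_mul hSm, natDegree_finset_prod_X_sub_C_eq_card, g2d, hS]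
    omega
  have hc3 : (X ^ 3 - C π : (𝓞 K)[X]).Monic := monic_X_pow_sub_C π (by norm_num)
  have hgm : (X ^ (n - 3) + C 1 : (𝓞 K)[X]).Monic := monic_X_pow_add_C 1 (by omega)
  have hG3m : ((X ^ 3 - C π) * (X ^ (n - 3) + C 1) : (𝓞 K)[X]).Monic := hc3.mul hgm
  have hG3d : ((X ^ 3 - C π) * (X ^ (n - 3) + C 1) : (𝓞 K)[X]).natDegree = n := by
    rw [hc3.natDegree_mul hgm, natDegree_X_pow_sub_C, natDegree_X_pow_add_C]
    omega
  obtain ⟨H0, hH0⟩ := exists_lift (Ideal.Quotient.mk (p 0).asIdeal) Ideal.Quotient.mk_surjective g0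
  obtain ⟨H1, hH1⟩ := exists_lift (Ideal.Quotient.mk (p 1).asIdeal) Ideal.Quotient.mk_surjective
    (X * g1)
  obtain ⟨H2, hH2⟩ := exists_lift (Ideal.Quotient.mk (p 2).asIdeal) Ideal.Quotient.mk_surjective
    (g2 * ∏ c ∈ S, (X - C c))
  -- the Chinese remainder theorem
  have hcrt : ∀ j : ℕ, ∃ y : 𝓞 K, y - H0.coeff j ∈ (p 0).asIdeal ∧ y - H1.coeff j ∈ (p 1).asIdeal ∧
      y - H2.coeff j ∈ (p 2).asIdeal ∧
      y - ((X ^ 3 - C π) * (X ^ (n - 3) + C 1) : (𝓞 K)[X]).coeff j ∈ v.asIdeal ^ 2 := by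
    intro j
    let Q : Fin 4 → HeightOneSpectrum (𝓞 K) := ![p 0, p 1, p 2, v]
    have hQ : Function.Injective Q := by
      have h01 : p 0 ≠ p 1 := fun h => absurd (hp h) (by decide)
      have h02 : p 0 ≠ p 2 := fun h => absurd (hp h) (by decide)
      have h12 : p 1 ≠ p 2 := fun h => absurd (hp h) (by decide)
      intro a b hab
      fin_cases a <;> fin_cases b <;> simp [Q] at hab ⊢
      · exact h01 hab
      · exact h02 hab
      · exact hv 0 hab.symm
      · exact h01 hab.symm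
      · exact h12 hab
      · exact hv 1 hab.symm
      · exact h02 hab.symm
      · exact h12 hab.symm
      · exact hv 2 hab.symm
      · exact hv 0 hab
      · exact hv 1 hab
      · exact hv 2 hab
    obtain ⟨y, hy⟩ := IsDedekindDomain.exists_forall_sub_mem_ideal (s := Finset.univ)
      (fun i => (Q i).asIdeal) ![1, 1, 1, 2] (fun i _ => (Q i).prime)
      (fun a _ b _ hab h => hab (hQ (HeightOneSpectrum.ext h)))
      (fun i => (![H0.coeff j, H1.coeff j, H2.coeff j,
        ((X ^ 3 - C π) * (X ^ (n - 3) + C 1) : (𝓞 K)[X]).coeff j] : Fin 4 → 𝓞 K) i)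
    refine ⟨y, ?_, ?_, ?_, ?_⟩
    · have := hy 0 (Finset.mem_univ _)
      simpa [Q] using this
    · have := hy 1 (Finset.mem_univ _)
      simpa [Q] using this
    · have := hy 2 (Finset.mem_univ _)
      simpa [Q] using this
    · have := hy 3 (Finset.mem_univ _)
      simpa [Q] using this
  choose y hy using hcrt
  let f₀ : (𝓞 K)[X] := X ^ n + ∑ j : Fin n, C (y j) * X ^ (j : ℕ)
  have hdeg0 : (∑ j : Fin n, C (y j) * X ^ (j : ℕ) : (𝓞 K)[X]).degree < n :=
    degree_sum_fin_lt _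
  have hf0m : f₀.Monic := monic_X_pow_add hdeg0
  have hf0d : f₀.natDegree = n := by
    have h1 : (∑ j : Fin n, C (y j) * X ^ (j : ℕ) : (𝓞 K)[X]).degree < (X ^ n : (𝓞 K)[X]).degree := by
      rw [degree_X_pow]
      exact hdeg0
    have h2 := degree_add_eq_left_of_degree_lt h1
    rw [degree_X_pow] at h2
    exact natDegree_eq_of_degree_eq_some h2
  have hcoeff : ∀ j < n, f₀.coeff j = y j := by
    intro j hj
    have h1 : (X ^ n : (𝓞 K)[X]).coeff j = 0 := by
      rw [coeff_X_pow, if_neg hj.ne]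
    change (X ^ n + ∑ j : Fin n, C (y j) * X ^ (j : ℕ) : (𝓞 K)[X]).coeff j = y j
    rw [coeff_add, h1, zero_add, finset_sum_coeff]
    simp only [coeff_C_mul_X_pow]
    rw [Finset.sum_eq_single (⟨j, hj⟩ : Fin n)]
    · simp
    · intro b _ hb
      rw [if_neg]
      intro h
      exact hb (Fin.ext h.symm)
    · intro h
      exact absurd (Finset.mem_univ _) h
  refine ⟨f₀, hf0m, hf0d, fun f hm hd hI => ?_⟩
  -- equality of the reductions
  have hred : ∀ (I : Ideal (𝓞 K)) (G H : (𝓞 K)[X]), (∀ j, (f - f₀).coeff j ∈ I) →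
      (∀ j, y j - H.coeff j ∈ I) → (H.map (Ideal.Quotient.mk I)).Monic →
      (H.map (Ideal.Quotient.mk I)).natDegree = n →
      f.map (Ideal.Quotient.mk I) = H.map (Ideal.Quotient.mk I) := by
    intro I _ H h1 h2 h3 h4
    ext j
    rcases lt_trichotomy j n with hj | hj | hj
    · rw [coeff_map, coeff_map, Ideal.Quotient.eq]
      have e : f.coeff j - H.coeff j = (f - f₀).coeff j + (y j - H.coeff j) := by
        rw [coeff_sub, hcoeff j hj]
        ring
      rw [e]
      exact I.add_mem (h1 j) (h2 j)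
    · subst hj
      have e1 : (H.map (Ideal.Quotient.mk I)).coeff j = 1 := by
        have := h3.coeff_natDegree
        rwa [h4] at this
      rw [e1, coeff_map]
      have e2 : f.coeff j = 1 := by
        have := hm.coeff_natDegree
        rwa [hd] at this
      rw [e2, map_one]
    · rw [coeff_eq_zero_of_natDegree_lt, coeff_eq_zero_of_natDegree_lt]
      · rw [h4]; exact hj
      · refine lt_of_le_of_lt natDegree_map_le ?_
        rw [hd]
        exact hj
  have hI0 : ∀ j, (f - f₀).coeff j ∈ (p 0).asIdeal := fun j => (hI j).1.1.1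
  have hI1 : ∀ j, (f - f₀).coeff j ∈ (p 1).asIdeal := fun j => (hI j).1.1.2
  have hI2 : ∀ j, (f - f₀).coeff j ∈ (p 2).asIdeal := fun j => (hI j).1.2
  have hI3 : ∀ j, (f - f₀).coeff j ∈ v.asIdeal ^ 2 := fun j => (hI j).2
  refine ⟨⟨?_, ⟨g1, g1i, by omega, ?_⟩, g2, S, g2m, g2i, g2d, by omega, ?_⟩, π,
    X ^ (n - 3) + C 1, hπ1, hπ2, ?_, fun j => ?_⟩
  · rw [hred _ 0 H0 hI0 (fun j => (hy j).1) (by rw [hH0]; exact g0m) (by rw [hH0]; exact g0d), hH0]
    exact g0i
  · rw [hred _ 0 H1 hI1 (fun j => (hy j).2.1) (by rw [hH1]; exact hG1m) (by rw [hH1]; exact hG1d),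
      hH1]
    exact dvd_mul_left _ _
  · rw [hred _ 0 H2 hI2 (fun j => (hy j).2.2.1) (by rw [hH2]; exact hG2m)
      (by rw [hH2]; exact hG2d), hH2]
  · have h1 : (X ^ (n - 3) + C 1 : (𝓞 K)[X]).coeff 0 = 1 := by
      rw [coeff_add, coeff_X_pow, if_neg (by omega), coeff_C_zero, zero_add]
    rw [h1]
    exact fun h => v.isPrime.ne_top ((Ideal.eq_top_iff_one _).2 h)
  · have hnt : Nontrivial (𝓞 K ⧸ v.asIdeal ^ 2) := by
      refine Ideal.Quotient.nontrivial_iff.2 fun h => v.isPrime.ne_top ?_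
      rw [Ideal.eq_top_iff_one] at h ⊢
      exact Ideal.pow_le_self two_ne_zero h
    have h1 := hred _ 0 ((X ^ 3 - C π) * (X ^ (n - 3) + C 1)) hI3 (fun j => (hy j).2.2.2)
      (hG3m.map _) (by rw [hG3m.natDegree_map, hG3d])
    have h2 := congrArg (fun q => coeff q j) h1
    simp only [coeff_map] at h2
    rw [coeff_sub]
    exact Ideal.Quotient.eq.1 h2

end Pool.Agent.U442.Sel
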