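import Pool.Agent.U442.Sel.Main

/-!
The Galois data for families of polynomials `X ^ n - X - 1`.
-/

set_option autoImplicit false

namespace Pool.Agent.U442.Sel

open Polynomial Equiv NumberField
open Pool.Agent.U442.Htj (TrivialModTwo GovernedBy)
open Pool.Agent.U442.Htj.EP (AbsoluteGaloisGroup)
open Pool.Agent.N197.AP (GD)
open Pool.Agent.N171 (HypP)
open scoped Classical

theorem mem_rootSet' {L F : Type} [Field L] [Field F] [Algebra L F] {n : ℕ} (hn : 2 ≤ n) (x : F) :
    x ∈ (X ^ n - X - 1 : L[X]).rootSet F ↔ x ^ n = x + 1 := by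
  rw [mem_rootSet_of_ne (monicP hn).ne_zero]
  simp only [map_sub, map_pow, aeval_X, map_one]
  constructor
  · intro h; linear_combination h
  · intro h; linear_combination h

theorem hypP {L : Type} [Field L] [CharZero L] {n : ℕ} (hn : 7 ≤ n) (ho : Odd n) :
    HypP (X ^ n - X - 1 : L[X]) :=
  ⟨monicP (by omega), sepP (by omega), by rw [degP (by omega)]; exact ho, two_ne_zero⟩

theorem mem_of_fixed' {L F : Type} [Field L] [Field F] [Algebra L F] [IsGalois L F]
    {k : Type} [Field k] [Algebra k F] (E : IntermediateField k F)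
    (hE : ∀ x : L, algebraMap L F x ∈ E) (δ : F) (h : δ ∉ E) :
    ∃ s : F ≃ₐ[L] F, (∀ x ∈ E, s x = x) ∧ s δ ≠ δ := by
  by_contra hcon
  push Not at hcon
  exact h (Pool.Agent.U442.Gro.mem_of_fixed E hE δ hcon)

theorem gd {L : Type} [Field L] [NumberField L] {E : IntermediateField ℚ (AlgebraicClosure L)}
    (hE : Normal ℚ E) (hL : ∀ x : L, algebraMap L (AlgebraicClosure L) x ∈ E) {d : ℕ}
    (t : AbsoluteGaloisGroup L →* Matrix (Fin d) (Fin d) ℤ_[2])
    (ht : ∀ s : AbsoluteGaloisGroup L, (∀ x ∈ E, s x = x) → TrivialModTwo t s)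
    {I : Type} (n : I → ℕ) (hinj : Function.Injective n) (hn : ∀ i, 7 ≤ n i)
    (hx : ∀ i, ∃ x : RT (n i) (AlgebraicClosure L), (x : AlgebraicClosure L) ∉ E) {M : Type}
    [AddCommGroup M] [Module ℚ_[2] M] {ν : Representation ℚ_[2] (AbsoluteGaloisGroup L) M}
    (hν : GovernedBy t ν) : GD (fun i => (X ^ n i - X - 1 : L[X])) ν := by
  have hac : IsAlgClosure ℚ (AlgebraicClosure L) := by
    refine ⟨inferInstance, ?_⟩
    exact Algebra.IsAlgebraic.trans ℚ L (AlgebraicClosure L)
  have hfin : ∀ i, Finite (RT (n i) (AlgebraicClosure L)) := fun i =>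
    finite_RT (by have := hn i; omega)
  let _ : ∀ i, Fintype (RT (n i) (AlgebraicClosure L)) := fun i => Fintype.ofFinite _
  have hmem : ∀ i (x : AlgebraicClosure L), x ∈ (X ^ n i - X - 1 : L[X]).rootSet
      (AlgebraicClosure L) ↔ x ^ n i = x + 1 := fun i x =>
    mem_rootSet' (by have := hn i; omega) x
  refine Pool.Agent.U442.Htj.EP.gd_of_governed _ (fun i => ?_) (fun i π hπ => ?_)
    (fun i j hij => ?_) (fun i => ?_) hν
  · rw [degP (by have := hn i; omega)]
    exact hn i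
  · let e : (X ^ n i - X - 1 : L[X]).rootSet (AlgebraicClosure L) ≃
        RT (n i) (AlgebraicClosure L) := Equiv.subtypeEquivRight (hmem i)
    obtain ⟨s, _, hs⟩ := even_over (hn i) hE hL (hx i) (e.permCongr π)
      (by rw [Equiv.Perm.sign_permCongr]; exact hπ)
    refine ⟨s, fun x => ?_⟩
    have h := hs (e x)
    rw [Equiv.permCongr_apply, Equiv.symm_apply_apply] at h
    exact h
  · obtain ⟨s, _, hs1, x, hx⟩ := pair_over (hn j) (hn i) (fun h => hij (hinj h)) hE hL (hx i)
    exact ⟨s, fun y hy => hs1 ⟨y, (hmem j y).1 hy⟩, x, (hmem i x).2 x.2, hx⟩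
  · obtain ⟨x, hx⟩ := hx i
    have hnx := mem_of_fixed' (L := L) E hL x hx
    obtain ⟨s, hs, hsx⟩ := hnx
    exact ⟨s, ht s hs, x, (hmem i x).2 x.2, hsx⟩

end Pool.Agent.U442.Sel
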