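import Mathlib

/-!
Squares in number fields which are unramified at a prime number.
-/

set_option autoImplicit false

namespace Pool.Agent.U442.Sel

open NumberField IsDedekindDomain

/-- The prime number `p` is unramified in the number field `E`: it is not in the square of a prime
ideal which contains it. -/
def UnramifiedAt (p : ℕ) (E : Type) [Field E] [NumberField E] : Prop :=
  ∀ P : HeightOneSpectrum (𝓞 E), (p : 𝓞 E) ∈ P.asIdeal → (p : 𝓞 E) ∉ P.asIdeal ^ 2

theorem even_of_unramified {p : ℕ} (hp : p.Prime) {E : Type} [Field E] [NumberField E]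
    (hE : UnramifiedAt p E) {c : ℤ} (hc : c ≠ 0) {δ : E} (hδ : δ ^ 2 = (c : E)) :
    Even (padicValInt p c) := by
  have := Fact.mk hp
  -- a prime ideal above `p`
  have hnu : ¬ IsUnit (p : 𝓞 E) := by
    intro h
    have h2 : IsUnit (Algebra.norm ℤ (p : 𝓞 E)) := h.map _
    have h3 : Algebra.norm ℤ ((p : ℕ) : 𝓞 E) = (p : ℤ) ^ Module.finrank ℤ (𝓞 E) := by
      have := Algebra.norm_natCast (R := ℤ) (S := 𝓞 E) p
      simpa using this
    rw [h3, isUnit_pow_iff (Module.finrank_pos).ne'] at h2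
    have h4 := Int.isUnit_iff.1 h2
    have h5 := hp.two_le
    omega
  obtain ⟨M, hM, hpM⟩ := Ideal.exists_le_maximal (Ideal.span {(p : 𝓞 E)})
    (by rwa [Ne, Ideal.span_singleton_eq_top])
  have hpM' : (p : 𝓞 E) ∈ M := hpM (Ideal.mem_span_singleton_self _)
  have hp0 : (p : 𝓞 E) ≠ 0 := by exact_mod_cast hp.ne_zero
  let P : HeightOneSpectrum (𝓞 E) := ⟨M, hM.isPrime, fun h => hp0 (by rw [h] at hpM'; exact hpM')⟩
  have h1 : P.intValuation (p : 𝓞 E) = WithZero.exp (-(1 : ℤ)) := by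
    have h2 : P.intValuation (p : 𝓞 E) ≤ WithZero.exp (-((1 : ℕ) : ℤ)) :=
      (P.intValuation_le_pow_iff_mem _ 1).2 (by rw [pow_one]; exact hpM')
    have h3 : ¬ P.intValuation (p : 𝓞 E) ≤ WithZero.exp (-((2 : ℕ) : ℤ)) :=
      fun h => hE P hpM' ((P.intValuation_le_pow_iff_mem _ 2).1 h)
    obtain ⟨a, ha⟩ : ∃ a : ℤ, P.intValuation (p : 𝓞 E) = WithZero.exp a := by
      rw [P.intValuation_if_neg hp0]
      exact ⟨_, rfl⟩
    rw [ha, WithZero.exp_le_exp] at h2 h3
    rw [ha]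
    congr 1
    push_cast at h2 h3
    omega
  -- the prime-to-`p` part
  obtain ⟨m, hm, hpm⟩ : ∃ m : ℤ, c = (p : ℤ) ^ (padicValInt p c) * m ∧ ¬ (p : ℤ) ∣ m := by
    obtain ⟨m, hm⟩ := padicValInt_dvd (p := p) c
    refine ⟨m, hm, fun ⟨k, hk⟩ => ?_⟩
    have h4 : (p : ℤ) ^ (padicValInt p c + 1) ∣ c := ⟨k, by
      conv_lhs => rw [hm, hk]
      ring⟩
    rcases (padicValInt_dvd_iff (padicValInt p c + 1) c).1 h4 with h | h
    · exact hc h
    · omega
  have hmv : P.intValuation (m : 𝓞 E) = 1 := by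
    refine HeightOneSpectrum.intValuation_eq_one_iff.2 fun h => ?_
    have hcop : IsCoprime (p : ℤ) m :=
      (Prime.coprime_iff_not_dvd (Nat.prime_iff_prime_int.1 hp)).2 hpm
    obtain ⟨a, b, hab⟩ := hcop
    apply P.isPrime.ne_top
    rw [Ideal.eq_top_iff_one]
    have h5 : (1 : 𝓞 E) = (a : 𝓞 E) * (p : 𝓞 E) + (b : 𝓞 E) * (m : 𝓞 E) := by
      have := congrArg (Int.cast : ℤ → 𝓞 E) hab
      push_cast at this
      exact this.symm
    rw [h5]
    exact P.asIdeal.add_mem (P.asIdeal.mul_mem_left _ hpM') (P.asIdeal.mul_mem_left _ h)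
  have hδ0 : δ ≠ 0 := by
    rintro rfl
    rw [zero_pow two_ne_zero] at hδ
    exact hc (by exact_mod_cast hδ.symm)
  obtain ⟨a, ha⟩ : ∃ a : ℤ, P.valuation E δ = WithZero.exp a := by
    obtain ⟨a, ha⟩ := WithZero.ne_zero_iff_exists.1 ((map_ne_zero (P.valuation E)).2 hδ0)
    exact ⟨Multiplicative.toAdd a, ha.symm⟩
  have h6 : P.valuation E (c : E) = WithZero.exp (-(padicValInt p c : ℤ)) := by
    have h7 : (c : E) = algebraMap (𝓞 E) E ((p : 𝓞 E) ^ (padicValInt p c) * (m : 𝓞 E)) := by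
      conv_lhs => rw [hm]
      push_cast
      rfl
    rw [h7, HeightOneSpectrum.valuation_of_algebraMap, map_mul, map_pow, h1, hmv, mul_one,
      ← WithZero.exp_nsmul]
    congr 1
    simp
  rw [← hδ, map_pow, ha, ← WithZero.exp_nsmul, WithZero.exp_inj] at h6
  have h8 : ((padicValInt p c : ℕ) : ℤ) = 2 * (-a) := by
    rw [nsmul_eq_mul] at h6
    push_cast at h6
    linarith
  have h9 : Even ((padicValInt p c : ℕ) : ℤ) := ⟨-a, by rw [h8]; ring⟩
  exact (Int.even_coe_nat _).1 h9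

end Pool.Agent.U442.Sel
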