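import Pool.Agent.U442.Sel.Perm
import Pool.Agent.U442.Sel.Disc
import Pool.Agent.U442.Sel.Val
import Pool.Agent.W85.FB.GAL
import Pool.Agent.U442.Htj.EP
import Pool.Agent.U442.Gro.Main

/-!
The Galois data for the polynomials `X ^ n - X - 1`.
-/

set_option autoImplicit false

namespace Pool.Agent.U442.Sel

open Polynomial Equiv NumberField

attribute [-instance] DivisionRing.toRatAlgebra in
/-- The Galois group of `ℚ` acts on the roots as the full symmetric group. -/
theorem act_surjective {F : Type} [Field F] [Algebra ℚ F] [IsAlgClosure ℚ F] {n : ℕ} (hn : 2 ≤ n) :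
    Function.Surjective (act n ℚ F) := by
  have hac : IsAlgClosed F := IsAlgClosure.isAlgClosed ℚ
  have hcz : CharZero F := charZero_of_injective_algebraMap (algebraMap ℚ F).injective
  have hnormal : Normal ℚ F := IsAlgClosure.normal ℚ F
  intro π
  set P : ℚ[X] := X ^ n - X - 1 with hP
  have hP0 : P ≠ 0 := (monicP hn).ne_zero
  have hmemF : ∀ x : F, x ∈ P.rootSet F ↔ x ^ n = x + 1 := by
    intro x
    rw [mem_rootSet_of_ne hP0]
    simp only [hP, map_sub, map_pow, aeval_X, map_one]
    constructor
    · intro h; linear_combination h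
    · intro h; linear_combination h
  let M : IntermediateField ℚ F := IntermediateField.adjoin ℚ (P.rootSet F)
  have hs : P.IsSplittingField ℚ M :=
    IntermediateField.adjoin_rootSet_isSplittingField (IsAlgClosed.splits _)
  have hmemM : ∀ x : M, x ∈ P.rootSet M ↔ (x : F) ^ n = x + 1 := by
    intro x
    rw [mem_rootSet_of_ne hP0]
    simp only [hP, map_sub, map_pow, aeval_X, map_one]
    constructor
    · intro h
      have h1 := congrArg (algebraMap M F) h
      simp only [map_sub, map_pow, map_one, map_zero] at h1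
      have h2 : algebraMap M F x = (x : F) := rfl
      rw [h2] at h1
      linear_combination h1
    · intro h
      apply (algebraMap M F).injective
      simp only [map_sub, map_pow, map_one, map_zero]
      have h2 : algebraMap M F x = (x : F) := rfl
      rw [h2]
      linear_combination h
  let e : RT n F ≃ P.rootSet M :=
    { toFun := fun x => ⟨⟨x, IntermediateField.subset_adjoin ℚ _ ((hmemF x).2 x.2)⟩,
        (hmemM _).2 x.2⟩
      invFun := fun y => ⟨(y : M), (hmemM _).1 y.2⟩
      left_inv := fun _ => rfl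
      right_inv := fun _ => rfl }
  obtain ⟨τ, hτ⟩ := Pool.Agent.W85.FB.gal_aux M hn hs (e.permCongr π)
  refine ⟨τ.liftNormal F, ?_⟩
  ext x
  have h1 := AlgEquiv.liftNormal_commutes τ F ((e x : P.rootSet M) : M)
  have h2 : algebraMap M F ((e x : P.rootSet M) : M) = (x : F) := rfl
  rw [h2, hτ, Equiv.permCongr_apply, Equiv.symm_apply_apply] at h1
  rw [act_apply, h1]
  rfl

theorem card_RT {F : Type} [Field F] [CharZero F] [IsAlgClosed F] {n : ℕ} (hn : 2 ≤ n)
    [Fintype (RT n F)] : Fintype.card (RT n F) = n := by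
  obtain ⟨e, _⟩ := exists_enum (F := F) hn
  rw [← Fintype.card_congr e, Fintype.card_fin]

theorem finite_RT {F : Type} [Field F] [CharZero F] [IsAlgClosed F] {n : ℕ} (hn : 2 ≤ n) :
    Finite (RT n F) := by
  obtain ⟨e, _⟩ := exists_enum (F := F) hn
  exact Finite.of_equiv _ e

/-- The root `x` of `X ^ n - X - 1` is moved by an automorphism over `E`. -/
theorem exists_moved {F : Type} [Field F] [Algebra ℚ F] [IsGalois ℚ F] (E : IntermediateField ℚ F)
    {x : F} (hx : x ∉ E) : ∃ s ∈ E.fixingSubgroup, s x ≠ x := by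
  by_contra hcon
  push Not at hcon
  apply hx
  rw [← InfiniteGalois.fixedField_fixingSubgroup E, IntermediateField.mem_fixedField_iff]
  exact hcon

attribute [-instance] DivisionRing.toRatAlgebra in
theorem fix_normal' {F : Type} [Field F] [Algebra ℚ F] [CharZero F] [Normal ℚ F]
    {E : IntermediateField ℚ F} (hE : Normal ℚ E) : E.fixingSubgroup.Normal := by
  have h1 : IsGalois ℚ E := ⟨⟩
  have h2 : IsGalois ℚ F := ⟨⟩
  infer_instance

theorem fix_normal {F : Type} [Field F] [Algebra ℚ F] [CharZero F] [Normal ℚ F]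
    {E : IntermediateField ℚ F} (hE : Normal ℚ E) : E.fixingSubgroup.Normal := by
  apply fix_normal'
  convert hE
  exact Subsingleton.elim _ _

section field

variable {L F : Type} [Field L] [Field F] [Algebra L F] [Algebra ℚ F]

/-- from automorphisms over `E` to automorphisms over `L` -/
theorem toL {E : IntermediateField ℚ F} (hL : ∀ x : L, algebraMap L F x ∈ E) {s : F ≃ₐ[ℚ] F}
    (hs : s ∈ E.fixingSubgroup) : ∃ s' : F ≃ₐ[L] F, (∀ x ∈ E, s' x = x) ∧ ∀ x, s' x = s x := by
  rw [IntermediateField.mem_fixingSubgroup_iff] at hs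
  exact ⟨AlgEquiv.ofRingEquiv (f := s.toRingEquiv) fun x => hs _ (hL x), fun x hx => hs x hx,
    fun x => rfl⟩

variable [IsAlgClosure ℚ F]

theorem isGalois' : IsGalois ℚ F := by
  have : Normal ℚ F := IsAlgClosure.normal ℚ F
  exact ⟨⟩

/-- all even permutations of the roots over `E` -/
theorem even_over {n : ℕ} (hn : 7 ≤ n) {E : IntermediateField ℚ F} (hE : Normal ℚ E)
    (hL : ∀ x : L, algebraMap L F x ∈ E) (hx : ∃ x : RT n F, (x : F) ∉ E) [Fintype (RT n F)]
    [DecidableEq (RT n F)] (π : Perm (RT n F)) (hπ : Perm.sign π = 1) :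
    ∃ s : F ≃ₐ[L] F, (∀ x ∈ E, s x = x) ∧ ∀ x : RT n F, s x = (π x : F) := by
  have hac : IsAlgClosed F := IsAlgClosure.isAlgClosed ℚ
  have hcz : CharZero F := charZero_of_injective_algebraMap (algebraMap ℚ F).injective
  have hgal : IsGalois ℚ F := isGalois'
  have hnormal : Normal ℚ F := IsAlgClosure.normal ℚ F
  have hN := fix_normal hE
  obtain ⟨x, hx⟩ := hx
  obtain ⟨s, hs, hsx⟩ := exists_moved E hx
  have hne : act n ℚ F s ≠ 1 := by
    intro h
    apply hsx
    have := congrArg (fun g : Perm (RT n F) => ((g x : RT n F) : F)) h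
    exact this
  obtain ⟨g, hg, hgπ⟩ := alt_of_ne (act n ℚ F) (act_surjective (by omega))
    (by rw [card_RT (by omega)]; omega) E.fixingSubgroup hN hs hne π hπ
  obtain ⟨s', h1, h2⟩ := toL hL hg
  refine ⟨s', h1, fun y => ?_⟩
  rw [h2, ← hgπ]
  rfl

/-- elements over `E` which fix the roots for `m` and move a root for `n` -/
theorem pair_over {m n : ℕ} (hm : 7 ≤ m) (hn : 7 ≤ n) (hmn : m ≠ n) {E : IntermediateField ℚ F}
    (hE : Normal ℚ E) (hL : ∀ x : L, algebraMap L F x ∈ E) (hx : ∃ x : RT n F, (x : F) ∉ E) :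
    ∃ s : F ≃ₐ[L] F, (∀ x ∈ E, s x = x) ∧ (∀ x : RT m F, s x = (x : F)) ∧
      ∃ x : RT n F, s x ≠ (x : F) := by
  classical
  have hac : IsAlgClosed F := IsAlgClosure.isAlgClosed ℚ
  have hcz : CharZero F := charZero_of_injective_algebraMap (algebraMap ℚ F).injective
  have hgal : IsGalois ℚ F := isGalois'
  have hnormal : Normal ℚ F := IsAlgClosure.normal ℚ F
  have hN := fix_normal hE
  have hfm : Finite (RT m F) := finite_RT (by omega)
  have hfn : Finite (RT n F) := finite_RT (by omega)
  let _ := Fintype.ofFinite (RT m F)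
  let _ := Fintype.ofFinite (RT n F)
  obtain ⟨x, hx⟩ := hx
  obtain ⟨s, hs, hsx⟩ := exists_moved E hx
  have hne : act n ℚ F s ≠ 1 := by
    intro h
    apply hsx
    have := congrArg (fun g : Perm (RT n F) => ((g x : RT n F) : F)) h
    exact this
  have hcm : Fintype.card (RT m F) = m := card_RT (by omega)
  have hcn : Fintype.card (RT n F) = n := card_RT (by omega)
  obtain ⟨g, hg, hg1, hg2⟩ := pair_normal (act m ℚ F) (act n ℚ F) (act_surjective (by omega))
    (act_surjective (by omega)) (by omega) (by omega) (by omega) E.fixingSubgroup hN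
    hs hne
  obtain ⟨s', h1, h2⟩ := toL hL hg
  refine ⟨s', h1, fun y => ?_, ?_⟩
  · rw [h2]
    have := congrArg (fun g : Perm (RT m F) => ((g y : RT m F) : F)) hg1
    exact this
  · by_contra hcon
    push Not at hcon
    apply hg2
    ext y
    have := hcon y
    rw [h2] at this
    exact this

/-- The degree of `E`. -/
theorem outside_of_degree {n : ℕ} (hn : 2 ≤ n) {E : IntermediateField ℚ F} [NumberField E]
    (h : ¬ n.factorial ∣ Module.finrank ℚ E) : ∃ x : RT n F, (x : F) ∉ E := by
  classical
  have hac : IsAlgClosed F := IsAlgClosure.isAlgClosed ℚ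
  have hcz : CharZero F := charZero_of_injective_algebraMap (algebraMap ℚ F).injective
  have hgal : IsGalois ℚ F := isGalois'
  have hfn : Finite (RT n F) := finite_RT (by omega)
  let _ := Fintype.ofFinite (RT n F)
  by_contra hcon
  push Not at hcon
  apply h
  rw [IntermediateField.finrank_eq_fixingSubgroup_index]
  have hle : E.fixingSubgroup ≤ (act n ℚ F).ker := by
    intro s hs
    rw [IntermediateField.mem_fixingSubgroup_iff] at hs
    rw [MonoidHom.mem_ker]
    ext x
    exact hs x (hcon x)
  have h1 := Subgroup.index_dvd_of_le hle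
  have h2 : (act n ℚ F).ker.index = n.factorial := by
    rw [Subgroup.index_ker, MonoidHom.range_eq_top.2 (act_surjective hn), Subgroup.card_top,
      Nat.card_eq_fintype_card, Fintype.card_perm, card_RT hn]
  rwa [h2] at h1

/-- A prime number which is unramified in `E`. -/
theorem outside_of_prime {n : ℕ} (hn : 2 ≤ n) (ho : Odd n) {E : IntermediateField ℚ F}
    [NumberField E] {p : ℕ} (hp : p.Prime) (hE : UnramifiedAt p E)
    (hodd : Odd (padicValNat p (n ^ n - (n - 1) ^ (n - 1)))) : ∃ x : RT n F, (x : F) ∉ E := by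
  classical
  have hac : IsAlgClosed F := IsAlgClosure.isAlgClosed ℚ
  have hcz : CharZero F := charZero_of_injective_algebraMap (algebraMap ℚ F).injective
  have hgal : IsGalois ℚ F := isGalois'
  have hfn : Finite (RT n F) := finite_RT (by omega)
  let _ := Fintype.ofFinite (RT n F)
  by_contra hcon
  push Not at hcon
  obtain ⟨δ, hδ, _, hs⟩ := exists_delta (F := F) hn ho
  -- `δ` is in `E`
  have hδE : δ ∈ E := by
    by_contra hx
    obtain ⟨s, hs1, hs2⟩ := exists_moved E hx
    apply hs2
    have h1 : act n ℚ F s = 1 := by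
      rw [IntermediateField.mem_fixingSubgroup_iff] at hs1
      ext x
      exact hs1 x (hcon x)
    rw [hs ℚ s, h1, map_one]
    simp
  have hle : (n - 1) ^ (n - 1) ≤ n ^ n :=
    (Nat.pow_le_pow_left (Nat.sub_le n 1) _).trans (Nat.pow_le_pow_right (by omega) (by omega))
  set D : ℕ := n ^ n - (n - 1) ^ (n - 1) with hD
  have hDF : (n : F) ^ n - ((n : F) - 1) ^ (n - 1) = (D : F) := by
    rw [hD, Nat.cast_sub hle]
    push_cast
    rw [Nat.cast_sub (by omega), Nat.cast_one]
  have hD0 : D ≠ 0 := by
    intro h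
    rw [h, padicValNat_zero_right] at hodd
    exact absurd hodd (by decide)
  rw [hDF] at hδ
  have key : ∀ c : ℤ, c.natAbs = D → δ ^ 2 = (c : F) → False := by
    intro c hc hδc
    have h1 := even_of_unramified hp hE (c := c) (by rintro rfl; exact hD0 (by simpa using hc.symm))
      (δ := (⟨δ, hδE⟩ : E)) (by
        apply Subtype.ext
        push_cast
        exact hδc)
    have h2 : padicValInt p c = padicValNat p D := by rw [padicValInt, hc]
    rw [h2] at h1
    exact (Nat.not_even_iff_odd.2 hodd) h1
  rcases hδ with h | h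
  · exact key D (by simp) (by rw [h]; push_cast; rfl)
  · exact key (-D) (by simp) (by rw [h]; push_cast; rfl)

end field

end Pool.Agent.U442.Sel
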