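import Mathlib

/-!
Images of normal subgroups in symmetric groups.
-/

set_option autoImplicit false

namespace Pool.Agent.U442.Sel

open Equiv

theorem exists_noncomm {Y : Type} [Fintype Y] [DecidableEq Y] (hY : 3 ≤ Fintype.card Y) :
    ∃ g h : Perm Y, g * h ≠ h * g := by
  obtain ⟨x, y, z, hxy, hxz, hyz⟩ := Fintype.two_lt_card_iff.1 (show 2 < Fintype.card Y by omega)
  refine ⟨swap x y, swap y z, fun h => hyz ?_⟩
  have h1 := congrArg (fun g : Perm Y => g x) h
  simp only [Perm.mul_apply, swap_apply_left, swap_apply_of_ne_of_ne hxy hxz] at h1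
  exact h1

/-- Two actions of a group as full symmetric groups of different degrees. -/
theorem pair {Γ : Type} [Group Γ] {X Y : Type} [Fintype X] [DecidableEq X] [Fintype Y]
    [DecidableEq Y] (a : Γ →* Perm X) (b : Γ →* Perm Y) (ha : Function.Surjective a)
    (hb : Function.Surjective b) (hX : 5 ≤ Fintype.card X) (hY : 5 ≤ Fintype.card Y)
    (hne : Fintype.card X ≠ Fintype.card Y) : ∃ s, a s = 1 ∧ b s ≠ 1 := by
  by_contra hcon
  push Not at hcon
  have hN : ((b.ker).map a).Normal := Subgroup.Normal.map inferInstance a ha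
  by_cases hbot : (b.ker).map a = ⊥
  · -- the two kernels are equal
    have hk : b.ker ≤ a.ker := by
      intro s hs
      have h1 : a s ∈ (b.ker).map a := Subgroup.mem_map_of_mem a hs
      rw [hbot] at h1
      exact h1
    have hk2 : a.ker = b.ker := le_antisymm (fun s hs => hcon s hs) hk
    have e1 := (QuotientGroup.quotientKerEquivOfSurjective a ha).toEquiv
    have e2 := (QuotientGroup.quotientKerEquivOfSurjective b hb).toEquiv
    rw [hk2] at e1
    have h3 := Fintype.card_congr (e1.symm.trans e2)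
    rw [Fintype.card_perm, Fintype.card_perm] at h3
    exact hne ((Nat.factorial_inj (by omega)).1 h3)
  · have hnt : Nontrivial ((b.ker).map a) := (Subgroup.nontrivial_iff_ne_bot _).2 hbot
    have halt := Equiv.Perm.alternatingGroup_le_of_normal
      (by rw [Nat.card_eq_fintype_card]; exact hX) hnt
    obtain ⟨g, h, hgh⟩ := exists_noncomm (Y := Y) (by omega)
    obtain ⟨g, rfl⟩ := hb g
    obtain ⟨h, rfl⟩ := hb h
    apply hgh
    have h1 : a (g * h * g⁻¹ * h⁻¹) ∈ alternatingGroup X := by
      rw [Perm.mem_alternatingGroup]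
      simp only [map_mul, map_inv]
      rw [mul_comm (Perm.sign (a g)) (Perm.sign (a h)), mul_assoc (Perm.sign (a h)),
        mul_inv_cancel, mul_one, mul_inv_cancel]
    obtain ⟨x, hx, hx2⟩ := halt h1
    have h2 : a (g * h * g⁻¹ * h⁻¹ * x⁻¹) = 1 := by rw [map_mul, map_inv, hx2, mul_inv_cancel]
    have h3 := hcon _ h2
    have hx' : b x = 1 := hx
    rw [map_mul, map_inv, hx', inv_one, mul_one] at h3
    simp only [map_mul, map_inv] at h3
    have h4 := mul_inv_eq_one.1 h3
    have h5 := mul_inv_eq_iff_eq_mul.1 h4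
    exact h5

/-- A normal subgroup which acts nontrivially. -/
theorem alt_of_ne {Γ : Type} [Group Γ] {X : Type} [Fintype X] [DecidableEq X] (a : Γ →* Perm X)
    (ha : Function.Surjective a) (hX : 5 ≤ Fintype.card X) (N : Subgroup Γ) (hN : N.Normal)
    {s : Γ} (hs : s ∈ N) (hne : a s ≠ 1) (π : Perm X) (hπ : Perm.sign π = 1) :
    ∃ g ∈ N, a g = π := by
  have hM : (N.map a).Normal := Subgroup.Normal.map hN a ha
  have hs' : a s ∈ N.map a := Subgroup.mem_map_of_mem a hs
  have hnt : Nontrivial (N.map a) := by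
    refine (Subgroup.nontrivial_iff_ne_bot _).2 fun h => hne ?_
    rwa [h, Subgroup.mem_bot] at hs'
  have halt := Equiv.Perm.alternatingGroup_le_of_normal
    (by rw [Nat.card_eq_fintype_card]; exact hX) hnt
  obtain ⟨g, hg, h⟩ := halt (Perm.mem_alternatingGroup.2 hπ)
  exact ⟨g, hg, h⟩

theorem exists_noncomm_even {Y : Type} [Fintype Y] [DecidableEq Y] (hY : 5 ≤ Fintype.card Y) :
    ∃ g h : Perm Y, Perm.sign g = 1 ∧ Perm.sign h = 1 ∧ g * h ≠ h * g := by
  obtain ⟨i⟩ := Function.Embedding.nonempty_of_card_le (α := Fin 4) (β := Y)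
    (by rw [Fintype.card_fin]; omega)
  have h01 : i 0 ≠ i 1 := fun h => absurd (i.injective h) (by decide)
  have h02 : i 0 ≠ i 2 := fun h => absurd (i.injective h) (by decide)
  have h03 : i 0 ≠ i 3 := fun h => absurd (i.injective h) (by decide)
  have h12 : i 1 ≠ i 2 := fun h => absurd (i.injective h) (by decide)
  have h13 : i 1 ≠ i 3 := fun h => absurd (i.injective h) (by decide)
  have h23 : i 2 ≠ i 3 := fun h => absurd (i.injective h) (by decide)
  refine ⟨swap (i 0) (i 1) * swap (i 1) (i 2), swap (i 1) (i 2) * swap (i 2) (i 3), ?_, ?_,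
    fun h => h12 ?_⟩
  · rw [map_mul, Perm.sign_swap h01, Perm.sign_swap h12]
    rfl
  · rw [map_mul, Perm.sign_swap h12, Perm.sign_swap h23]
    rfl
  · have h1 := congrArg (fun g : Perm Y => g (i 0)) h
    simp only [Perm.mul_apply, swap_apply_left, swap_apply_right,
      swap_apply_of_ne_of_ne h01 h02, swap_apply_of_ne_of_ne h02 h03,
      swap_apply_of_ne_of_ne h12 h13] at h1
    exact h1

/-- Two actions as symmetric groups of different degrees: a normal subgroup which acts nontrivially
in the second one contains elements which act trivially in the first one and nontrivially in the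
second one. -/
theorem pair_normal {Γ : Type} [Group Γ] {X Y : Type} [Fintype X] [DecidableEq X] [Fintype Y]
    [DecidableEq Y] (a : Γ →* Perm X) (b : Γ →* Perm Y) (ha : Function.Surjective a)
    (hb : Function.Surjective b) (hX : 5 ≤ Fintype.card X) (hY : 5 ≤ Fintype.card Y)
    (hne : Fintype.card X ≠ Fintype.card Y) (N : Subgroup Γ) (hN : N.Normal) {s : Γ} (hs : s ∈ N)
    (hsb : b s ≠ 1) : ∃ g ∈ N, a g = 1 ∧ b g ≠ 1 := by
  obtain ⟨r, hr1, hr2⟩ := pair a b ha hb hX hY hne
  obtain ⟨g, h, hg, hh, hgh⟩ := exists_noncomm_even hY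
  obtain ⟨x, hx, hxg⟩ := alt_of_ne b hb hY a.ker inferInstance (s := r) hr1 hr2 g hg
  obtain ⟨y, hy, hyh⟩ := alt_of_ne b hb hY N hN hs hsb h hh
  refine ⟨x * y * x⁻¹ * y⁻¹, N.mul_mem (hN.conj_mem y hy x) (N.inv_mem hy), ?_, fun h1 => hgh ?_⟩
  · have hx' : a x = 1 := hx
    simp only [map_mul, map_inv, hx']
    group
  · simp only [map_mul, map_inv, hxg, hyh] at h1
    exact mul_inv_eq_iff_eq_mul.1 (mul_inv_eq_one.1 h1)

end Pool.Agent.U442.Sel
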